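import Pool.Agent.T9h3.P.Spn
import Mathlib.RingTheory.DedekindDomain.Ideal.Lemmas

/-!
# Gluing of lattices over Dedekind domains
-/

set_option autoImplicit false
set_option linter.unusedSectionVars false
set_option linter.overlappingInstances false

namespace Pool.Agent.T9h3.Q

open Pool.Agent.H918R2.Quad Pool.Agent.T9h3.P

variable {k E F : Type} [CommRing k] [IsDomain k] [Field E] [Field F] [Algebra k E]
  [Algebra E F] [Algebra k F] [IsScalarTower k E F] [IsFractionRing k E]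

/-- The lattices agree at `𝔭`. -/
def LEQ (𝔭 : Ideal k) (N N' : Submodule k F) : Prop :=
  (∀ x ∈ N, ∃ s : k, s ∉ 𝔭 ∧ s • x ∈ N') ∧ ∀ x ∈ N', ∃ s : k, s ∉ 𝔭 ∧ s • x ∈ N

lemma LEQ.refl {𝔭 : Ideal k} (h : 𝔭 ≠ ⊤) (N : Submodule k F) : LEQ 𝔭 N N :=
  ⟨fun x hx => ⟨1, (Ideal.ne_top_iff_one 𝔭).1 h, by rwa [one_smul]⟩,
    fun x hx => ⟨1, (Ideal.ne_top_iff_one 𝔭).1 h, by rwa [one_smul]⟩⟩

lemma LEQ.symm {𝔭 : Ideal k} {N N' : Submodule k F} (h : LEQ 𝔭 N N') : LEQ 𝔭 N' N := ⟨h.2, h.1⟩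

lemma LEQ.trans {𝔭 : Ideal k} (hp : 𝔭.IsPrime) {N N' N'' : Submodule k F} (h : LEQ 𝔭 N N')
    (h' : LEQ 𝔭 N' N'') : LEQ 𝔭 N N'' := by
  constructor
  · intro x hx
    obtain ⟨s, hs, h1⟩ := h.1 x hx
    obtain ⟨t, ht, h2⟩ := h'.1 _ h1
    refine ⟨t * s, fun h3 => (hp.mem_or_mem h3).elim ht hs, ?_⟩
    rwa [mul_smul]
  · intro x hx
    obtain ⟨s, hs, h1⟩ := h'.2 x hx
    obtain ⟨t, ht, h2⟩ := h.2 _ h1
    refine ⟨t * s, fun h3 => (hp.mem_or_mem h3).elim ht hs, ?_⟩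
    rwa [mul_smul]

/-- The lattice is finitely generated at `𝔭`. -/
def FGL (𝔭 : Ideal k) (N : Submodule k F) : Prop :=
  ∃ S : Finset F, (∀ x ∈ S, x ∈ N) ∧ ∀ x ∈ N, ∃ s : k, s ∉ 𝔭 ∧ s • x ∈ Submodule.span k (S : Set F)

/-- The intersection. -/
def INT (𝔭 : Ideal k) (hp : 𝔭.IsPrime) (N' L : Submodule k F) : Submodule k F where
  carrier := {x | (∃ s : k, s ∉ 𝔭 ∧ s • x ∈ L) ∧ ∃ m : ℕ, ∀ a ∈ 𝔭 ^ m, a • x ∈ N'}
  add_mem' := by
    rintro x y ⟨⟨s, hs, h1⟩, m, h2⟩ ⟨⟨t, ht, h3⟩, n, h4⟩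
    refine ⟨⟨s * t, fun h => (hp.mem_or_mem h).elim hs ht, ?_⟩, m + n, fun a ha => ?_⟩
    · rw [smul_add]
      refine L.add_mem ?_ ?_
      · rw [mul_comm, mul_smul]
        exact L.smul_mem _ h1
      · rw [mul_smul]
        exact L.smul_mem _ h3
    · rw [smul_add]
      exact N'.add_mem (h2 a (Ideal.pow_le_pow_right (Nat.le_add_right m n) ha))
        (h4 a (Ideal.pow_le_pow_right (Nat.le_add_left n m) ha))
  zero_mem' := by
    refine ⟨⟨1, (Ideal.ne_top_iff_one 𝔭).1 hp.ne_top, ?_⟩, 0, fun a _ => ?_⟩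
    · rw [smul_zero]; exact L.zero_mem
    · rw [smul_zero]; exact N'.zero_mem
  smul_mem' := by
    rintro c x ⟨⟨s, hs, h1⟩, m, h2⟩
    refine ⟨⟨s, hs, ?_⟩, m, fun a ha => ?_⟩
    · rw [smul_comm]
      exact L.smul_mem _ h1
    · rw [smul_comm]
      exact N'.smul_mem _ (h2 a ha)

lemma mem_INT {𝔭 : Ideal k} {hp : 𝔭.IsPrime} {N' L : Submodule k F} {x : F} :
    x ∈ INT 𝔭 hp N' L ↔ (∃ s : k, s ∉ 𝔭 ∧ s • x ∈ L) ∧ ∃ m : ℕ, ∀ a ∈ 𝔭 ^ m, a • x ∈ N' := Iff.rfl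

/-- Factorization. -/
lemma exists_fac [IsDedekindDomain k] {𝔭 : Ideal k} (hp : 𝔭.IsMaximal) {s : k} (hs : s ≠ 0) :
    ∃ (m : ℕ) (u : k), u ∉ 𝔭 ∧ ∀ a ∈ 𝔭 ^ m, ∃ c : k, a * u = s * c := by
  have h0 : Ideal.span {s} ≠ (⊥ : Ideal k) := by
    rwa [Ne, Ideal.span_singleton_eq_bot]
  have hu : ¬ IsUnit 𝔭 := by
    rw [Ideal.isUnit_iff]
    exact hp.ne_top
  have hfm : FiniteMultiplicity 𝔭 (Ideal.span {s}) :=
    FiniteMultiplicity.of_not_isUnit hu h0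
  obtain ⟨J, hJ, hn⟩ := hfm.exists_eq_pow_mul_and_not_dvd
  have h1 : ¬ J ≤ 𝔭 := fun h => hn (Ideal.dvd_iff_le.2 h)
  obtain ⟨u, huJ, hu𝔭⟩ := Set.not_subset.1 h1
  refine ⟨multiplicity 𝔭 (Ideal.span {s}), u, hu𝔭, fun a ha => ?_⟩
  have h2 : a * u ∈ Ideal.span {s} := by
    rw [hJ]
    exact Ideal.mul_mem_mul ha huJ
  obtain ⟨c, hc⟩ := Ideal.mem_span_singleton'.1 h2
  exact ⟨c, by rw [← hc, mul_comm]⟩

lemma exists_pow_notMem {𝔭 𝔮 : Ideal k} (hp : 𝔭.IsMaximal) (hq : 𝔮.IsMaximal) (h : 𝔭 ≠ 𝔮)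
    (m : ℕ) : ∃ a ∈ 𝔭 ^ m, a ∉ 𝔮 := by
  have h1 : ¬ 𝔭 ≤ 𝔮 := fun h2 => h (hp.eq_of_le hq.ne_top h2)
  obtain ⟨a, ha, haq⟩ := Set.not_subset.1 h1
  exact ⟨a ^ m, Ideal.pow_mem_pow ha m, fun h3 => haq (hq.isPrime.mem_of_pow_mem m h3)⟩

/-- **Gluing at a prime.** -/
theorem glue_one [IsDedekindDomain k] {𝔭 : Ideal k} (hp : 𝔭.IsMaximal) {W : Submodule E F}
    {N' L : Submodule k F} (hN' : N'.FG) (h1 : SPN N' W) (h2 : SPN L W) (hL : FGL 𝔭 L) :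
    ∃ N : Submodule k F, N.FG ∧ SPN N W ∧ LEQ 𝔭 N L ∧
      ∀ 𝔮 : Ideal k, 𝔮.IsMaximal → 𝔮 ≠ 𝔭 → LEQ 𝔮 N N' := by
  classical
  have hpp := hp.isPrime
  have hkF : Function.Injective (algebraMap k F) := by
    rw [IsScalarTower.algebraMap_eq k E F]
    exact (algebraMap E F).injective.comp (IsFractionRing.injective k E)
  have hLE : LEQ 𝔭 (INT 𝔭 hpp N' L) L := by
    refine ⟨fun x hx => hx.1, fun x hx => ?_⟩
    obtain ⟨s, hs, hsx⟩ := h1.den x (h2.sub x hx)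
    obtain ⟨m, u, hu, hau⟩ := exists_fac hp hs
    refine ⟨u, hu, ⟨1, (Ideal.ne_top_iff_one 𝔭).1 hp.ne_top, ?_⟩, m, fun a ha => ?_⟩
    · rw [one_smul]
      exact L.smul_mem _ hx
    · obtain ⟨c, hc⟩ := hau a ha
      rw [← mul_smul, hc, mul_comm, mul_smul]
      exact N'.smul_mem _ hsx
  refine ⟨INT 𝔭 hpp N' L, ?_, ⟨fun x hx => ?_, fun x hx => ?_⟩, hLE, fun 𝔮 hq hne => ⟨fun x hx => ?_,
    fun x hx => ?_⟩⟩
  · -- finitely generated
    obtain ⟨S, hS1, hS2⟩ := hL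
    have h3 : ∀ x ∈ S, ∃ s : k, s ≠ 0 ∧ s • x ∈ N' := fun x hx => h1.den x (h2.sub x (hS1 x hx))
    choose! s hs0 hs using h3
    obtain ⟨d, hd⟩ : ∃ d, d = ∏ x ∈ S, s x := ⟨_, rfl⟩
    have hd0 : d ≠ 0 := by
      rw [hd]
      exact Finset.prod_ne_zero_iff.2 hs0
    have hdS : ∀ x ∈ Submodule.span k (S : Set F), d • x ∈ N' := by
      intro x hx
      induction hx using Submodule.span_induction with
      | mem x hx =>
        have hx' : x ∈ S := hx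
        rw [hd, ← Finset.prod_erase_mul S s hx', mul_smul]
        exact N'.smul_mem _ (hs x hx')
      | zero => rw [smul_zero]; exact N'.zero_mem
      | add x y _ _ hx hy => rw [smul_add]; exact N'.add_mem hx hy
      | smul c x _ hx => rw [smul_comm]; exact N'.smul_mem _ hx
    have hdN : ∀ x ∈ INT 𝔭 hpp N' L, d • x ∈ N' := by
      rintro x ⟨⟨s₁, hs₁, hx1⟩, m, hx2⟩
      obtain ⟨s₂, hs₂, hx3⟩ := hS2 _ hx1
      obtain ⟨I, hI⟩ : ∃ I : Ideal k, ∀ c, c ∈ I ↔ c • (d • x) ∈ N' :=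
        ⟨{ carrier := {c | c • (d • x) ∈ N'}
           add_mem' := fun {a b} ha hb => by
             change (a + b) • (d • x) ∈ N'
             rw [add_smul]
             exact N'.add_mem ha hb
           zero_mem' := by
             change (0 : k) • (d • x) ∈ N'
             rw [zero_smul]
             exact N'.zero_mem
           smul_mem' := fun c a ha => by
             change (c * a) • (d • x) ∈ N'
             rw [mul_smul]
             exact N'.smul_mem _ ha }, fun c => Iff.rfl⟩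
      have h4 : I = ⊤ := by
        by_contra hne
        obtain ⟨𝔮, hq, hIq⟩ := Ideal.exists_le_maximal I hne
        have h5 : 𝔭 ≤ 𝔮 := by
          intro a ha
          refine hq.isPrime.mem_of_pow_mem m (hIq ((hI _).2 ?_))
          rw [smul_comm]
          exact N'.smul_mem _ (hx2 _ (Ideal.pow_mem_pow ha m))
        have h6 : 𝔭 = 𝔮 := hp.eq_of_le hq.ne_top h5
        have h7 : s₂ * s₁ ∈ 𝔮 := hIq ((hI _).2 (by
          rw [smul_comm, mul_smul]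
          exact hdS _ hx3))
        rw [← h6] at h7
        exact (hpp.mem_or_mem h7).elim hs₂ hs₁
      have h5 := (hI 1).1 (by rw [h4]; trivial)
      rwa [one_smul] at h5
    have hNN : IsNoetherian k N' := isNoetherian_of_fg_of_noetherian N' hN'
    refine Submodule.fg_of_fg_map_injective (LinearMap.lsmul k F d) ?_ ?_
    · intro x y hxy
      have h4 : d • x = d • y := hxy
      rw [Algebra.smul_def, Algebra.smul_def] at h4
      exact mul_left_cancel₀ (fun h => hd0 (hkF (by rw [h, map_zero]))) h4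
    · have h4 : (INT 𝔭 hpp N' L).map (LinearMap.lsmul k F d) ≤ N' := by
        rintro _ ⟨x, hx, rfl⟩
        exact hdN x hx
      exact (isNoetherian_submodule.1 hNN) _ h4
  · obtain ⟨s, hs, hsx⟩ := hx.1
    have h3 := h2.sub _ hsx
    have hs0 : s ≠ 0 := by
      rintro rfl
      exact hs 𝔭.zero_mem
    have hsE : algebraMap k E s ≠ 0 := fun h => hs0 (IsFractionRing.injective k E (by
      rw [h, map_zero]))
    rw [← algebraMap_smul E s] at h3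
    exact (Submodule.smul_mem_iff _ hsE).1 h3
  · obtain ⟨s, hs, hsx⟩ := h2.den x hx
    obtain ⟨u, hu, hux⟩ := hLE.2 _ hsx
    refine ⟨u * s, mul_ne_zero ?_ hs, by rw [mul_smul]; exact hux⟩
    rintro rfl
    exact hu 𝔭.zero_mem
  · obtain ⟨m, hm⟩ := hx.2
    obtain ⟨a, ha, haq⟩ := exists_pow_notMem hp hq hne.symm m
    exact ⟨a, haq, hm a ha⟩
  · obtain ⟨d, hd, hdx⟩ := h2.den x (h1.sub x hx)
    obtain ⟨m, u, hu, hau⟩ := exists_fac hp hd
    obtain ⟨a, ha, haq⟩ := exists_pow_notMem hp hq hne.symm m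
    obtain ⟨c, hc⟩ := hau a ha
    refine ⟨a, haq, ⟨u, hu, ?_⟩, 0, fun b _ => N'.smul_mem _ (N'.smul_mem _ hx)⟩
    rw [← mul_smul, mul_comm, hc, mul_comm, mul_smul]
    exact L.smul_mem _ hdx

/-- **Gluing at finitely many primes.** -/
theorem glue_fin [IsDedekindDomain k] {W : Submodule E F} {N' : Submodule k F} (hN' : N'.FG)
    (h1 : SPN N' W) (L : Ideal k → Submodule k F) (B : Finset (Ideal k))
    (hB : ∀ 𝔭 ∈ B, 𝔭.IsMaximal ∧ SPN (L 𝔭) W ∧ FGL 𝔭 (L 𝔭)) :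
    ∃ N : Submodule k F, N.FG ∧ SPN N W ∧ (∀ 𝔭 ∈ B, LEQ 𝔭 N (L 𝔭)) ∧
      ∀ 𝔮 : Ideal k, 𝔮.IsMaximal → 𝔮 ∉ B → LEQ 𝔮 N N' := by
  classical
  induction B using Finset.induction_on with
  | empty =>
    exact ⟨N', hN', h1, fun 𝔭 h => absurd h (Finset.notMem_empty _),
      fun 𝔮 hq _ => LEQ.refl hq.ne_top N'⟩
  | insert 𝔭 B h𝔭 ih =>
    obtain ⟨N, h2, h3, h4, h5⟩ := ih (fun 𝔮 hq => hB 𝔮 (Finset.mem_insert_of_mem hq))
    obtain ⟨hp, h6, h7⟩ := hB 𝔭 (Finset.mem_insert_self _ _)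
    obtain ⟨N₂, h8, h9, h10, h11⟩ := glue_one hp h2 h3 h6 h7
    refine ⟨N₂, h8, h9, fun 𝔮 hq => ?_, fun 𝔮 hq hqB => ?_⟩
    · rcases Finset.mem_insert.1 hq with rfl | hq'
      · exact h10
      · have hqm := (hB 𝔮 hq).1
        have hne : 𝔮 ≠ 𝔭 := by
          rintro rfl
          exact h𝔭 hq'
        exact (h11 𝔮 hqm hne).trans hqm.isPrime (h4 𝔮 hq')
    · rw [Finset.mem_insert, not_or] at hqB
      exact (h11 𝔮 hq hqB.1).trans hq.isPrime (h5 𝔮 hq hqB.2)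

/-- **Regularity is local on the base.** -/
theorem RCH_local {N : Submodule k F}
    (h : ∀ 𝔭 : Ideal k, 𝔭.IsMaximal → ∃ L : Submodule k F, LEQ 𝔭 N L ∧ RCH (L : Set F)) :
    RCH (N : Set F) := by
  apply RCH_of
  intro f hf hf0 𝒪 hloc hle
  have hk : ∀ r : k, algebraMap k F r ∈ 𝒪 := fun r => hle (k_mem_CC hf hf0 r)
  -- a maximal ideal containing the nonunits
  obtain ⟨𝔭, hp, hpU⟩ : ∃ 𝔭 : Ideal k, 𝔭.IsMaximal ∧ ∀ s : k, s ∉ 𝔭 → U 𝒪 (algebraMap k F s) := by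
    have h1 : (primeOf hloc (algebraMap k F) hk).IsPrime := inferInstance
    obtain ⟨𝔭, hp, hle'⟩ := Ideal.exists_le_maximal _ h1.ne_top
    refine ⟨𝔭, hp, fun s hs => ?_⟩
    by_contra hU
    exact hs (hle' hU)
  obtain ⟨L, hL, hR⟩ := h 𝔭 hp
  obtain ⟨s, hs, hsf⟩ := hL.1 f hf
  have hsU := hpU s hs
  have hs0 : algebraMap k F s ≠ 0 := hsU.1
  have hg0 : s • f ≠ 0 := by
    rw [Algebra.smul_def]
    exact mul_ne_zero hs0 hf0
  refine ⟨CC (L : Set F) (s • f), ?_, ?_, hR _ hsf hg0⟩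
  · unfold CC
    rw [Subring.closure_le]
    rintro _ ⟨m, hm, rfl⟩
    obtain ⟨u, hu, hum⟩ := hL.2 m hm
    have huU := hpU u hu
    have hu0 := huU.1
    have e1 : m / (s • f) = (u • m / f) * ((algebraMap k F u)⁻¹ * (algebraMap k F s)⁻¹) := by
      rw [Algebra.smul_def, Algebra.smul_def]
      field_simp
    rw [e1]
    exact 𝒪.mul_mem (hle (CC_mem f hum)) (𝒪.mul_mem huU.2.2 hsU.2.2)
  · intro m hm
    obtain ⟨u, hu, hum⟩ := hL.1 m hm
    have huU := hpU u hu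
    have hu0 := huU.1
    have e1 : m / f = (u • m / (s • f)) * (algebraMap k F s / algebraMap k F u) := by
      rw [Algebra.smul_def, Algebra.smul_def]
      field_simp
    rw [e1]
    exact (FU.of_mem (CC_mem _ hum)).mul ((FU.of_mem (k_mem_CC hsf hg0 s)).div
      (FU.of_mem (k_mem_CC hsf hg0 u)) huU)

/-- The fraction field. -/
theorem QCH_local (hkF : Function.Injective (algebraMap k F)) {N L : Submodule k F} {𝔭 : Ideal k}
    (h : LEQ 𝔭 N L) (hQ : QCH (L : Set F)) : QCH (N : Set F) := by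
  have h0 : ∀ s : k, s ∉ 𝔭 → algebraMap k F s ≠ 0 := by
    intro s hs h1
    apply hs
    have h2 : s = 0 := hkF (by rw [h1, map_zero])
    rw [h2]
    exact 𝔭.zero_mem
  apply QCH_of
  intro f hf hf0
  obtain ⟨s, hs, hsf⟩ := h.1 f hf
  have hs0 := h0 s hs
  have hg0 : s • f ≠ 0 := by
    rw [Algebra.smul_def]
    exact mul_ne_zero hs0 hf0
  refine ⟨CC (L : Set F) (s • f), hQ _ hsf hg0, FR_CC fun m hm => ?_⟩
  obtain ⟨u, hu, hum⟩ := h.2 m hm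
  have hu0 := h0 u hu
  have e1 : m / (s • f) = (u • m / f) / (algebraMap k F u * algebraMap k F s) := by
    rw [Algebra.smul_def, Algebra.smul_def]
    field_simp
  rw [e1]
  exact (FR.of_mem (CC_mem f hum)).div ((FR.of_mem (k_mem_CC hf hf0 u)).mul
    (FR.of_mem (k_mem_CC hf hf0 s)))

end Pool.Agent.T9h3.Q
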