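import Pool.Agent.T9h3.Q.Plc
import Pool.Agent.T9h3.Q.Glu2
import Pool.Agent.T9h3.P.Cht

/-!
# Assembling the local lattices
-/

set_option autoImplicit false
set_option linter.unusedSectionVars false
set_option linter.overlappingInstances false
set_option linter.unusedVariables false

namespace Pool.Agent.T9h3.Q

open Pool.Agent.T9h3.P Pool.Agent.H918R2.Quad

section asb

variable {k E F : Type} [CommRing k] [IsDomain k] [IsDedekindDomain k] [Field E] [Algebra k E]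
  [IsFractionRing k E] [Field F] [Algebra E F] [Algebra k F] [IsScalarTower k E F]

/-- **Assembling.** -/
theorem assemble (B : Finset (Ideal k)) (hBm : ∀ 𝔭 ∈ B, 𝔭.IsMaximal) {W : Submodule E F}
    (hloc : ∀ 𝔭 ∈ B, GLK 𝔭 W) {P : Submodule k F → Prop} {n₀ : ℕ} (h0 : 1 ≤ n₀)
    (big : ∀ m : ℕ, 1 ≤ m → ∃ N' : Submodule k F, N'.FG ∧ SPN N' (W ^ (n₀ * m)) ∧ P N') :
    ∃ n : ℕ, 1 ≤ n ∧ ∀ m : ℕ, 1 ≤ m → ∃ N N' : Submodule k F, N.FG ∧ SPN N (W ^ (n * m)) ∧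
      SPN N' (W ^ (n * m)) ∧ P N' ∧
      (∀ 𝔭 ∈ B, ∃ L : Submodule k F, LEQ 𝔭 N L ∧ RCH (L : Set F) ∧ QCH (L : Set F)) ∧
      ∀ 𝔮 : Ideal k, 𝔮.IsMaximal → 𝔮 ∉ B → LEQ 𝔮 N N' := by
  classical
  choose! n hn hL using hloc
  have hpos : ∀ s : Finset (Ideal k), s ⊆ B → 1 ≤ ∏ 𝔭 ∈ s, n 𝔭 := by
    intro s hs
    rw [Nat.one_le_iff_ne_zero, Finset.prod_ne_zero_iff]
    intro 𝔭 h𝔭
    have := hn 𝔭 (hs h𝔭)
    omega
  refine ⟨n₀ * ∏ 𝔭 ∈ B, n 𝔭, Nat.mul_pos h0 (hpos B (Finset.Subset.refl B)), fun m hm => ?_⟩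
  obtain ⟨N', hfg, hsp, hP⟩ := big ((∏ 𝔭 ∈ B, n 𝔭) * m)
    (Nat.mul_pos (hpos B (Finset.Subset.refl B)) hm)
  rw [← mul_assoc] at hsp
  have h1 : ∀ 𝔭 ∈ B, ∃ L : Submodule k F, SPN L (W ^ ((n₀ * ∏ 𝔭 ∈ B, n 𝔭) * m)) ∧ FGL 𝔭 L ∧
      RCH (L : Set F) ∧ QCH (L : Set F) := by
    intro 𝔭 h𝔭
    obtain ⟨L, h2⟩ := hL 𝔭 h𝔭 (n₀ * (∏ 𝔮 ∈ B.erase 𝔭, n 𝔮) * m)
      (Nat.mul_pos (Nat.mul_pos h0 (hpos _ (Finset.erase_subset _ _))) hm)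
    refine ⟨L, ?_⟩
    have h3 : n 𝔭 * (n₀ * (∏ 𝔮 ∈ B.erase 𝔭, n 𝔮) * m) = (n₀ * ∏ 𝔭 ∈ B, n 𝔭) * m := by
      rw [← Finset.mul_prod_erase B n h𝔭]
      ring
    rwa [h3] at h2
  choose! L hL1 hL2 hL3 hL4 using h1
  obtain ⟨N, h2, h3, h4, h5⟩ := glue_fin hfg hsp L B (fun 𝔭 h𝔭 => ⟨hBm 𝔭 h𝔭, hL1 𝔭 h𝔭, hL2 𝔭 h𝔭⟩)
  exact ⟨N, N', h2, h3, hsp, hP, fun 𝔭 h𝔭 => ⟨L 𝔭, h4 𝔭 h𝔭, hL3 𝔭 h𝔭, hL4 𝔭 h𝔭⟩, h5⟩

/-- The primes of an element. -/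
lemma exists_primes {b : k} (hb : b ≠ 0) : ∃ B : Finset (Ideal k), ∀ 𝔭 : Ideal k,
    𝔭 ∈ B ↔ 𝔭.IsMaximal ∧ b ∈ 𝔭 := by
  have h1 : Ideal.span {b} ≠ (⊥ : Ideal k) := by rwa [Ne, Ideal.span_singleton_eq_bot]
  have h2 : {𝔭 : Ideal k | 𝔭.IsMaximal ∧ b ∈ 𝔭}.Finite := by
    refine ((Ideal.finite_factors h1).image fun v => v.asIdeal).subset ?_
    rintro 𝔭 ⟨hm, hbp⟩
    have h0 : 𝔭 ≠ ⊥ := by
      rintro rfl
      exact hb hbp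
    refine ⟨⟨𝔭, hm.isPrime, h0⟩, ?_, rfl⟩
    change 𝔭 ∣ Ideal.span {b}
    rw [Ideal.dvd_iff_le, Ideal.span_singleton_le_iff_mem]
    exact hbp
  exact ⟨h2.toFinset, fun 𝔭 => h2.mem_toFinset⟩

/-- The good lattices over the affine base. -/
theorem big_of {k' : Type} [CommRing k'] [IsDomain k'] [Algebra k' E] [Algebra k' F]
    [IsScalarTower k' E F] [IsFractionRing k' E] {W : Submodule E F} {b : k} (hb : b ≠ 0)
    (hkk : ∀ x : k, ∃ x' : k', algebraMap k' E x' = algebraMap k E x)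
    (hden : ∀ x' : k', ∃ (j : ℕ) (c : k), algebraMap k E b ^ j * algebraMap k' E x' =
      algebraMap k E c) (hG : GVK k' W) :
    ∃ n : ℕ, 1 ≤ n ∧ ∀ m : ℕ, 1 ≤ m → ∃ N' : Submodule k F, N'.FG ∧ SPN N' (W ^ (n * m)) ∧
      (∃ x ∈ N', x ≠ 0) ∧ ∀ 𝔮 : Ideal k, 𝔮.IsMaximal → b ∉ 𝔮 → ∃ L : Submodule k F, LEQ 𝔮 N' L ∧
        RCH (L : Set F) ∧ QCH (L : Set F) := by
  classical
  obtain ⟨n, hn, hG⟩ := hG
  refine ⟨n, hn, fun m hm => ?_⟩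
  obtain ⟨N, ⟨S, hS⟩, hsp, hR, hQ, x₀, hx₀, hx₀0⟩ := hG m hm
  have hbE : algebraMap k E b ≠ 0 := fun h => hb (IsFractionRing.injective k E (by
    rw [h, map_zero]))
  have hkF : ∀ (c : k) (x : F), c • x = algebraMap E F (algebraMap k E c) * x := by
    intro c x
    rw [Algebra.smul_def, ← IsScalarTower.algebraMap_apply]
  have hkF' : ∀ (c : k') (x : F), c • x = algebraMap E F (algebraMap k' E c) * x := by
    intro c x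
    rw [Algebra.smul_def, ← IsScalarTower.algebraMap_apply]
  obtain ⟨L, hL⟩ : ∃ L : Submodule k F, ∀ x, x ∈ L ↔ x ∈ N :=
    ⟨{ carrier := N
       add_mem' := fun ha hb => N.add_mem ha hb
       zero_mem' := N.zero_mem
       smul_mem' := fun c x hx => by
         obtain ⟨c', hc'⟩ := hkk c
         have h1 : c • x = c' • x := by
           rw [hkF, hkF', hc']
         rw [h1]
         exact N.smul_mem _ hx }, fun x => Iff.rfl⟩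
  have hset : (L : Set F) = N := by
    ext x
    exact hL x
  have hle : ∀ x ∈ Submodule.span k (S : Set F), x ∈ L := by
    intro x hx
    refine Submodule.span_le.2 ?_ hx
    intro y hy
    change y ∈ L
    rw [hL, ← hS]
    exact Submodule.subset_span hy
  have hpow : ∀ x ∈ N, ∃ j : ℕ, b ^ j • x ∈ Submodule.span k (S : Set F) := by
    intro x hx
    rw [← hS] at hx
    induction hx using Submodule.span_induction with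
    | mem x hx => exact ⟨0, by rw [pow_zero, one_smul]; exact Submodule.subset_span hx⟩
    | zero => exact ⟨0, by rw [smul_zero]; exact Submodule.zero_mem _⟩
    | add x y _ _ hx hy =>
      obtain ⟨i, hi⟩ := hx
      obtain ⟨j, hj⟩ := hy
      refine ⟨i + j, ?_⟩
      rw [smul_add]
      refine Submodule.add_mem _ ?_ ?_
      · rw [pow_add, mul_comm, mul_smul]
        exact Submodule.smul_mem _ _ hi
      · rw [pow_add, mul_smul]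
        exact Submodule.smul_mem _ _ hj
    | smul v x _ hx =>
      obtain ⟨i, hi⟩ := hx
      obtain ⟨j, c, hc⟩ := hden v
      refine ⟨i + j, ?_⟩
      have h1 : b ^ (i + j) • (v • x) = c • (b ^ i • x) := by
        simp only [hkF, hkF', ← hc, map_mul, map_pow]
        ring
      rw [h1]
      exact Submodule.smul_mem _ _ hi
  refine ⟨Submodule.span k (S : Set F), ⟨S, rfl⟩, ⟨fun x hx => hsp.sub x ((hL x).1 (hle x hx)),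
    fun x hx => ?_⟩, ?_, fun 𝔮 hq hbq => ⟨L, ⟨fun x hx => ⟨1, (Ideal.ne_top_iff_one 𝔮).1 hq.ne_top,
      by rw [one_smul]; exact hle x hx⟩, fun x hx => ?_⟩, by rwa [hset], by rwa [hset]⟩⟩
  · obtain ⟨v, hv, hvx⟩ := hsp.den x hx
    obtain ⟨i, hi⟩ := hpow _ hvx
    obtain ⟨j, c, hc⟩ := hden v
    refine ⟨c * b ^ i, ?_, ?_⟩
    · refine mul_ne_zero ?_ (pow_ne_zero _ hb)
      rintro rfl
      rw [map_zero] at hc
      rcases mul_eq_zero.1 hc with h1 | h1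
      · exact pow_ne_zero _ hbE h1
      · exact hv (IsFractionRing.injective k' E (by rw [h1, map_zero]))
    · have h1 : (c * b ^ i) • x = b ^ j • (b ^ i • (v • x)) := by
        simp only [hkF, hkF', ← hc, map_mul, map_pow]
        ring
      rw [h1]
      exact Submodule.smul_mem _ _ hi
  · obtain ⟨i, hi⟩ := hpow _ hx₀
    refine ⟨_, hi, ?_⟩
    rw [hkF, map_pow, map_pow]
    refine mul_ne_zero (pow_ne_zero _ ?_) hx₀0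
    rwa [Ne, map_eq_zero]
  · obtain ⟨i, hi⟩ := hpow x ((hL x).1 hx)
    exact ⟨b ^ i, fun h => hbq (hq.isPrime.mem_of_pow_mem i h), hi⟩

/-- **Good modules from local lattices.** -/
theorem hasModule_of_local (hkF : Function.Injective (algebraMap k F)) {B : Finset (Ideal k)}
    {b : k} (hB : ∀ 𝔭 : Ideal k, 𝔭 ∈ B ↔ 𝔭.IsMaximal ∧ b ∈ 𝔭) {W : Submodule E F}
    (hloc : ∀ 𝔭 ∈ B, GLK 𝔭 W)
    (big : ∃ n : ℕ, 1 ≤ n ∧ ∀ m : ℕ, 1 ≤ m → ∃ N' : Submodule k F, N'.FG ∧ SPN N' (W ^ (n * m)) ∧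
      (∃ x ∈ N', x ≠ 0) ∧ ∀ 𝔮 : Ideal k, 𝔮.IsMaximal → b ∉ 𝔮 → ∃ L : Submodule k F, LEQ 𝔮 N' L ∧
        RCH (L : Set F) ∧ QCH (L : Set F)) : HasModule k F := by
  obtain ⟨n₀, hn₀, big⟩ := big
  obtain ⟨n, hn, h1⟩ := assemble B (fun 𝔭 h𝔭 => ((hB 𝔭).1 h𝔭).1) hloc hn₀ big
  obtain ⟨N, N', hfg, hsp, hsp', ⟨⟨x, hx, hx0⟩, hP⟩, hL, hne⟩ := h1 1 le_rfl
  have hloc' : ∀ 𝔭 : Ideal k, 𝔭.IsMaximal → ∃ L : Submodule k F, LEQ 𝔭 N L ∧ RCH (L : Set F) ∧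
      QCH (L : Set F) := by
    intro 𝔭 hp
    by_cases h2 : 𝔭 ∈ B
    · exact hL 𝔭 h2
    · obtain ⟨L, h3, h4⟩ := hP 𝔭 hp (fun h => h2 ((hB 𝔭).2 ⟨hp, h⟩))
      exact ⟨L, (hne 𝔭 hp h2).trans hp.isPrime h3, h4⟩
  refine ⟨N, hfg, ?_, (QCH_iff N).1 ?_, (RCH_iff N).1 ?_⟩
  · obtain ⟨s, hs, hsx⟩ := hsp.den x (hsp'.sub x hx)
    refine ⟨_, hsx, ?_⟩
    rw [Algebra.smul_def]
    exact mul_ne_zero (fun h => hs (hkF (by rw [h, map_zero]))) hx0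
  · obtain ⟨𝔭, hp⟩ := Ideal.exists_maximal k
    obtain ⟨L, h3, -, h4⟩ := hloc' 𝔭 hp
    exact QCH_local hkF h3 h4
  · refine RCH_local fun 𝔭 hp => ?_
    obtain ⟨L, h3, h4, -⟩ := hloc' 𝔭 hp
    exact ⟨L, h3, h4⟩

end asb

end Pool.Agent.T9h3.Q
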