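import Pool.Agent.T9h3.Q.Asb
import Mathlib.RingTheory.Jacobson.Ring
import Mathlib.FieldTheory.IntermediateField.Adjoin.Algebra
import Mathlib.GroupTheory.FiniteAbelian.Basic

/-!
# The integral closures of the affine base
-/

set_option autoImplicit false
set_option linter.unusedSectionVars false
set_option linter.overlappingInstances false
set_option linter.unusedVariables false

namespace Pool.Agent.T9h3.Q

open Pool.Agent.Y223.G Pool.Agent.R383.TM Pool.Agent.T9h3 Pool.Agent.T9h3.H
open Pool.Agent.T9h3.P

section big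

variable (A K₀ E M : Type) [CommRing A] [IsDomain A] [IsDedekindDomain A] [Field K₀] [Algebra A K₀]
  [IsFractionRing A K₀] [Field E] [Field M] [Algebra A E] [Algebra K₀ E] [IsScalarTower A K₀ E]
  [FiniteDimensional K₀ E] [Algebra.IsSeparable K₀ E] [Algebra E M] [Algebra A M]
  [IsScalarTower A E M] [FiniteDimensional E M] [IsGalois E M]

include K₀

lemma B_ded : IsDedekindDomain (integralClosure A E) := integralClosure.isDedekindDomain A K₀ E

lemma B_fin : Module.Finite A (integralClosure A E) := IsIntegralClosure.finite A K₀ E _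

lemma B_frac : IsFractionRing (integralClosure A E) E :=
  IsIntegralClosure.isFractionRing_of_finite_extension A K₀ E _

include E

lemma B_dedM : IsDedekindDomain (integralClosure A M) := by
  let _ : Algebra K₀ M := ((algebraMap E M).comp (algebraMap K₀ E)).toAlgebra
  have _ : IsScalarTower K₀ E M := IsScalarTower.of_algebraMap_eq fun _ => rfl
  have _ : IsScalarTower A K₀ M := IsScalarTower.of_algebraMap_eq fun x => by
    rw [IsScalarTower.algebraMap_apply A E M, IsScalarTower.algebraMap_apply A K₀ E]
    rfl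
  have _ : FiniteDimensional K₀ M := FiniteDimensional.trans K₀ E M
  have _ : Algebra.IsSeparable K₀ M := Algebra.IsSeparable.trans K₀ E M
  exact integralClosure.isDedekindDomain A K₀ M

lemma B_finM : Module.Finite A (integralClosure A M) := by
  let _ : Algebra K₀ M := ((algebraMap E M).comp (algebraMap K₀ E)).toAlgebra
  have _ : IsScalarTower K₀ E M := IsScalarTower.of_algebraMap_eq fun _ => rfl
  have _ : IsScalarTower A K₀ M := IsScalarTower.of_algebraMap_eq fun x => by
    rw [IsScalarTower.algebraMap_apply A E M, IsScalarTower.algebraMap_apply A K₀ E]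
    rfl
  have _ : FiniteDimensional K₀ M := FiniteDimensional.trans K₀ E M
  have _ : Algebra.IsSeparable K₀ M := Algebra.IsSeparable.trans K₀ E M
  exact IsIntegralClosure.finite A K₀ M _

end big

section res

lemma jac_int : IsJacobsonRing ℤ := by
  rw [isJacobsonRing_iff_prime_eq]
  intro P hP
  by_cases h : P = ⊥
  · subst h
    rw [eq_bot_iff]
    intro x hx
    rw [Ideal.mem_jacobson_bot] at hx
    have h1 := hx x
    rw [Int.isUnit_iff] at h1
    rw [Ideal.mem_bot]
    rcases h1 with h1 | h1
    · have h2 : x * x = 0 := by linarith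
      exact mul_self_eq_zero.1 h2
    · nlinarith [mul_self_nonneg x]
  · have h1 : P.IsMaximal := IsPrime.to_maximal_ideal h
    exact Ideal.jacobson_eq_self_of_isMaximal

/-- A field which is finitely generated over the integers is finite. -/
lemma finite_of_fg_int (L : Type) [Field L] [Module.Finite ℤ L] : Finite L := by
  obtain ⟨p, hp⟩ := CharP.exists L
  have hp0 : p ≠ 0 := by
    rintro rfl
    have h1 : CharZero L := CharP.charP_to_charZero L
    have h2 : Algebra.IsIntegral ℤ L := Algebra.IsIntegral.of_finite ℤ L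
    have h3 : IsField ℤ := isField_of_isIntegral_of_isField (S := L)
      (RingHom.injective_int (algebraMap ℤ L)) (Field.toIsField L)
    exact Int.not_isField h3
  refine Module.finite_of_fg_torsion L ?_
  intro x
  refine ⟨⟨(p : ℤ), mem_nonZeroDivisors_of_ne_zero (by exact_mod_cast hp0)⟩, ?_⟩
  change (p : ℤ) • x = 0
  rw [zsmul_eq_mul]
  push_cast
  rw [CharP.cast_eq_zero, zero_mul]

lemma finite_quot {O : Type} [CommRing O] [Algebra.FiniteType ℤ O] (𝔓 : Ideal O)
    (h : 𝔓.IsMaximal) : Finite (O ⧸ 𝔓) := by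
  have h3 : Algebra.FiniteType ℤ (O ⧸ 𝔓) :=
    Algebra.FiniteType.of_surjective (Ideal.Quotient.mkₐ ℤ 𝔓) (Ideal.Quotient.mkₐ_surjective ℤ 𝔓)
  let _ := Ideal.Quotient.field 𝔓
  have _ := jac_int
  have h4 := finite_of_finite_type_of_isJacobsonRing ℤ (O ⧸ 𝔓)
  exact finite_of_fg_int _

end res

section alg

variable (A E M : Type) [CommRing A] [Field E] [Field M] [Algebra A E] [Algebra E M] [Algebra A M]
  [IsScalarTower A E M]

/-- The map between the integral closures. -/
noncomputable abbrev algB : Algebra (integralClosure A E) (integralClosure A M) :=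
  ((IsScalarTower.toAlgHom A E M).mapIntegralClosure).toRingHom.toAlgebra

end alg

section gvk

variable (A K₀ : Type) {E M F K Λ : Type} [CommRing A] [IsDomain A] [IsDedekindDomain A] [Field K₀]
  [Algebra A K₀] [IsFractionRing A K₀] [Field E] [Field M] [Algebra A E] [Algebra K₀ E]
  [IsScalarTower A K₀ E] [FiniteDimensional K₀ E] [Algebra.IsSeparable K₀ E] [Algebra E M]
  [Algebra A M] [IsScalarTower A E M] [FiniteDimensional E M] [IsGalois E M]
  [Algebra.FiniteType ℤ A]
  [Field F] [Field K] [Algebra E F]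
  [Algebra M K] [Algebra E K] [IsScalarTower E M K] [Algebra F K] [IsScalarTower E F K]
  [AddCommGroup Λ] [Module.Free ℤ Λ] [Module.Finite ℤ Λ] [DistribMulAction (M ≃ₐ[E] M) Λ]
  {χ : Λ → K} {Δ : Set Λ} {c : ℕ} {f : Fin c → AA (integralClosure A M) Λ} {a : Λ → M}

include K₀

/-- **The lattices over the affine base.** -/
theorem gvk_big {ρ : (M ≃ₐ[E] M) →* (K ≃ₐ[E] K)}
    (hρ : ∀ g x, ρ g (algebraMap M K x) = algebraMap M K (g x))
    (χ0 : χ 0 = 1) (χa : ∀ x y, χ (x + y) = χ x * χ y) (act : ∀ g x, ρ g (χ x) = χ (g • x))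
    (hgen : IntermediateField.adjoin M (Set.range χ) = ⊤)
    (fix : ∀ y, (∀ g, ρ g y = y) ↔ ∃ z : F, algebraMap F K z = y)
    (N : NDG E χ a f)
    {Θ : Set Λ} (hΘ : DF f Θ) (fin : Δ.Finite) (ne : Δ.Nonempty)
    (st : ∀ g : M ≃ₐ[E] M, ∀ x ∈ Δ, g • x ∈ Δ)
    (h : ∀ g : M ≃ₐ[E] M, CVP (SVR (orderOf g) (sA Λ g) Θ Δ) Δ)
    {S : Set F} (hSf : S.Finite)
    (hS : Submodule.span M (algebraMap F K '' S) = Submodule.span M (χ '' Δ)) :
    GVK (integralClosure A E) (Submodule.span E S) := by
  have i1 := B_ded A K₀ E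
  have i3 := B_frac A K₀ E
  have i4 := B_dedM A K₀ E M
  have i5 := B_finM A K₀ E M
  let _ := algB A E M
  have j1 : IsScalarTower (integralClosure A E) (integralClosure A M) M :=
    IsScalarTower.of_algebraMap_eq fun _ => rfl
  have j2 : IsIntegralClosure (integralClosure A M) (integralClosure A E) M := by
    refine ⟨Subtype.val_injective, fun {x} => ⟨fun hx => ?_, ?_⟩⟩
    · have h1 : IsIntegral A x := isIntegral_trans (A := integralClosure A E) x hx
      exact ⟨⟨x, h1⟩, rfl⟩
    · rintro ⟨y, rfl⟩
      exact IsIntegral.tower_top (R := A) y.2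
  have j3 : IsScalarTower (integralClosure A E) (integralClosure A M) K :=
    IsScalarTower.of_algebraMap_eq fun x => IsScalarTower.algebraMap_apply E M K x
  have j4 : IsScalarTower (integralClosure A E) F K :=
    IsScalarTower.of_algebraMap_eq fun x => IsScalarTower.algebraMap_apply E F K x
  have j5 : Algebra.FiniteType ℤ (integralClosure A M) :=
    Algebra.FiniteType.trans (S := A) inferInstance inferInstance
  exact gvk_of (k := integralClosure A E) (O := integralClosure A M) hρ
    (fun 𝔓 h𝔓 _ => finite_quot 𝔓 h𝔓) χ0 χa act hgen fix N hΘ fin ne st h hSf hS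

end gvk

end Pool.Agent.T9h3.Q
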