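import Pool.Agent.T9h3.Q.Big

/-!
# Function fields
-/

set_option autoImplicit false
set_option linter.unusedSectionVars false
set_option linter.overlappingInstances false
set_option linter.unusedVariables false

namespace Pool.Agent.T9h3.Q

open Pool.Agent.R383.TM Pool.Agent.T9h3 Pool.Agent.T9h3.H
open Pool.Agent.T9h3.P Pool.Agent.H918R2.Quad
open Polynomial hiding CC
open Pool.Agent.Y223.G hiding CC
open scoped IntermediateField IntermediateField.algebraAdjoinAdjoin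

section loc

variable {k F : Type} [CommRing k] [Field F] [Algebra k F]

/-- The chart at a local ring. -/
theorem local_chart {𝔭 : Ideal k} {N L : Submodule k F} (hL : LEQ 𝔭 N L)
    (hR : RCH (L : Set F)) {𝒪 : Subring F} (hpU : ∀ s : k, s ∉ 𝔭 → U 𝒪 (algebraMap k F s)) {f : F}
    (hf : f ∈ N) (hf0 : f ≠ 0) (hle : CC (N : Set F) f ≤ 𝒪) :
    ∃ B : Subring F, B ≤ 𝒪 ∧ (∀ m ∈ N, FU 𝒪 B (m / f)) ∧ RSB B := by
  obtain ⟨s, hs, hsf⟩ := hL.1 f hf
  have hsU := hpU s hs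
  have hs0 : algebraMap k F s ≠ 0 := hsU.1
  have hg0 : s • f ≠ 0 := by
    rw [Algebra.smul_def]
    exact mul_ne_zero hs0 hf0
  refine ⟨CC (L : Set F) (s • f), ?_, ?_, hR _ hsf hg0⟩
  · unfold CC
    rw [Subring.closure_le]
    rintro _ ⟨m, hm, rfl⟩
    obtain ⟨u, hu, hum⟩ := hL.2 m hm
    have huU := hpU u hu
    have hu0 := huU.1
    have e1 : m / (s • f) = (u • m / f) * ((algebraMap k F u)⁻¹ * (algebraMap k F s)⁻¹) := by
      rw [Algebra.smul_def, Algebra.smul_def]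
      field_simp
    rw [e1]
    exact 𝒪.mul_mem (hle (CC_mem f hum)) (𝒪.mul_mem huU.2.2 hsU.2.2)
  · intro m hm
    obtain ⟨u, hu, hum⟩ := hL.1 m hm
    have huU := hpU u hu
    have hu0 := huU.1
    have e1 : m / f = (u • m / (s • f)) * (algebraMap k F s / algebraMap k F u) := by
      rw [Algebra.smul_def, Algebra.smul_def]
      field_simp
    rw [e1]
    exact (FU.of_mem (CC_mem _ hum)).mul ((FU.of_mem (k_mem_CC hsf hg0 s)).div
      (FU.of_mem (k_mem_CC hsf hg0 u)) huU)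

end loc

section adj

variable {κ E : Type} [Field κ] [Field E] [Algebra κ E] (s : E)

lemma adjQ_poly (a : Algebra.adjoin κ {s}) : ∃ P : κ[X], (a : E) = aeval s P := by
  obtain ⟨x, hx⟩ := a
  rw [Algebra.adjoin_singleton_eq_range_aeval] at hx
  obtain ⟨P, hP⟩ := hx
  exact ⟨P, hP.symm⟩

lemma adjQ_ded : IsDedekindDomain (Algebra.adjoin κ {s}) := by
  have h0 : IsPrincipalIdealRing (Algebra.adjoin κ {s}) := by
    obtain ⟨s', hs'⟩ : ∃ s' : Algebra.adjoin κ {s}, (s' : E) = s :=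
      ⟨⟨s, Algebra.self_mem_adjoin_singleton κ s⟩, rfl⟩
    have h1 : Function.Surjective (aeval s' : κ[X] →ₐ[κ] Algebra.adjoin κ {s}) := by
      intro a
      obtain ⟨P, hP⟩ := adjQ_poly s a
      refine ⟨P, Subtype.ext ?_⟩
      have h2 := aeval_algHom_apply (Algebra.adjoin κ {s}).val s' P
      have h3 : (Algebra.adjoin κ {s}).val s' = s := hs'
      rw [h3] at h2
      rw [hP, h2]
      rfl
    exact IsPrincipalIdealRing.of_surjective
      (aeval s' : κ[X] →ₐ[κ] Algebra.adjoin κ {s}).toRingHom h1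
  infer_instance

lemma adjQ_ft [Finite κ] : Algebra.FiniteType ℤ (Algebra.adjoin κ {s}) := by
  have h1 : Algebra.FiniteType κ (Algebra.adjoin κ {s}) := by
    rw [← Subalgebra.fg_iff_finiteType]
    exact ⟨{s}, by simp⟩
  have h2 : Module.Finite ℤ κ := Module.Finite.of_finite
  exact Algebra.FiniteType.trans (S := κ) inferInstance h1

end adj

section ff

variable {κ E M F K Λ : Type} [Field κ] [Finite κ] [Field E] [Field M] [Algebra κ E]
  [Algebra E M] {t : E} [FiniteDimensional κ⟮t⟯ E] [Algebra.IsSeparable κ⟮t⟯ E]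
  [FiniteDimensional E M] [IsGalois E M] [Field F] [Field K] [Algebra κ F]
  [Algebra E F] [IsScalarTower κ E F] [Algebra M K] [Algebra E K] [IsScalarTower E M K]
  [Algebra F K] [IsScalarTower E F K] [AddCommGroup Λ] [Module.Free ℤ Λ] [Module.Finite ℤ Λ]
  [DistribMulAction (M ≃ₐ[E] M) Λ] {χ : Λ → K} {ρ : (M ≃ₐ[E] M) →* (K ≃ₐ[E] K)}

/-- **Subvarieties of tori over function fields.** -/
theorem ff_hasModule (ht : t ≠ 0)
    (hρ : ∀ g x, ρ g (algebraMap M K x) = algebraMap M K (g x))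
    (fix : ∀ y, (∀ g, ρ g y = y) ↔ ∃ z : F, algebraMap F K z = y)
    (χ0 : χ 0 = 1) (χa : ∀ x y, χ (x + y) = χ x * χ y) (act : ∀ g x, ρ g (χ x) = χ (g • x))
    (hgen : IntermediateField.adjoin M (Set.range χ) = ⊤)
    {c₀ : ℕ} {f₀ : Fin c₀ → AA (integralClosure (Algebra.adjoin κ {t}) M) Λ}
    (h0 : NDG E χ (fun _ => (1 : M)) f₀)
    (h1 : ∀ V : ValuationSubring E, t ∉ V → ∃ (a : Λ → M) (c : ℕ)
      (f : Fin c → AA (integralClosure V M) Λ), NDG E χ a f) :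
    HasModule κ F := by
  classical
  have hKt : κ⟮t⁻¹⟯ = κ⟮t⟯ := by
    apply le_antisymm
    · rw [IntermediateField.adjoin_simple_le_iff]
      exact inv_mem (IntermediateField.mem_adjoin_simple_self κ t)
    · rw [IntermediateField.adjoin_simple_le_iff]
      have h2 := inv_mem (IntermediateField.mem_adjoin_simple_self κ t⁻¹)
      rwa [inv_inv] at h2
  have i1 : FiniteDimensional κ⟮t⁻¹⟯ E := by
    rw [hKt]
    infer_instance
  have i2 : Algebra.IsSeparable κ⟮t⁻¹⟯ E := by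
    rw [hKt]
    infer_instance
  have j1 := adjQ_ded (κ := κ) t
  have j2 := adjQ_ft (κ := κ) t
  have j3 := adjQ_ded (κ := κ) t⁻¹
  have j4 := adjQ_ft (κ := κ) t⁻¹
  have k1 := B_ded (Algebra.adjoin κ {t}) κ⟮t⟯ E
  have k2 := B_fin (Algebra.adjoin κ {t}) κ⟮t⟯ E
  have k3 := B_frac (Algebra.adjoin κ {t}) κ⟮t⟯ E
  have k4 := B_ded (Algebra.adjoin κ {t⁻¹}) κ⟮t⁻¹⟯ E
  have k5 := B_fin (Algebra.adjoin κ {t⁻¹}) κ⟮t⁻¹⟯ E
  have k6 := B_frac (Algebra.adjoin κ {t⁻¹}) κ⟮t⁻¹⟯ E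
  have k7 : Algebra.FiniteType ℤ (integralClosure (Algebra.adjoin κ {t⁻¹}) E) :=
    Algebra.FiniteType.trans (S := Algebra.adjoin κ {t⁻¹}) inferInstance inferInstance
  -- the element `t⁻¹`
  obtain ⟨b, hb⟩ : ∃ b : integralClosure (Algebra.adjoin κ {t⁻¹}) E, (b : E) = t⁻¹ := by
    refine ⟨⟨t⁻¹, ?_⟩, rfl⟩
    exact (isIntegral_algebraMap (R := Algebra.adjoin κ {t⁻¹}) (A := E)
      (x := ⟨t⁻¹, Algebra.self_mem_adjoin_singleton κ t⁻¹⟩))
  have hb0 : b ≠ 0 := by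
    intro h
    have h2 : (b : E) = 0 := by rw [h]; rfl
    rw [hb] at h2
    exact inv_ne_zero ht h2
  obtain ⟨B, hB⟩ := exists_primes hb0
  -- the local data
  have hloc : ∀ 𝔭 ∈ B, ∃ Θ' : Finset Λ, ∀ (Θ Δ : Set Λ), (Θ' : Set Λ) ⊆ Θ → Δ.Finite → Δ.Nonempty →
      (∀ g : M ≃ₐ[E] M, ∀ x ∈ Δ, g • x ∈ Δ) →
      (∀ g : M ≃ₐ[E] M, CVP (SVR (orderOf g) (sA Λ g) Θ Δ) Δ) → ∀ S : Set F, S.Finite →
      Submodule.span M (algebraMap F K '' S) = Submodule.span M (χ '' Δ) →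
      GLK 𝔭 (Submodule.span E S) := by
    intro 𝔭 h𝔭
    obtain ⟨hmax, hn𝔭⟩ := (hB 𝔭).1 h𝔭
    have h𝔭0 : 𝔭 ≠ ⊥ := by
      rintro rfl
      exact hb0 hn𝔭
    obtain ⟨V, hV⟩ := exists_VP (E := E) 𝔭 hmax h𝔭0
    have htV : t ∉ V := by
      have hbE : algebraMap (integralClosure (Algebra.adjoin κ {t⁻¹}) E) E b = t⁻¹ := hb
      rcases (hV.iff _).1 hn𝔭 with h2 | h2
      · exfalso
        rw [hbE] at h2
        exact inv_ne_zero ht h2
      · rwa [hbE, inv_inv] at h2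
    obtain ⟨a, c, f, hN⟩ := h1 V htV
    obtain ⟨Θ', hΘ'⟩ := exists_DFN f
    refine ⟨Θ', fun Θ Δ hΘ fin ne st h S hSf hS => ?_⟩
    exact hV.glk_of (finite_quot 𝔭 hmax) hρ χ0 χa act hgen fix hN (DF_mono hΘ' hΘ) fin ne st h
      hSf hS
  choose! Θ' hΘ' using hloc
  obtain ⟨Θ₀, hΘ₀⟩ := exists_DFN f₀
  obtain ⟨Δ, fin, ne, st, hΔ⟩ := exists_polyN (M ≃ₐ[E] M) Λ (Θ₀ ∪ B.biUnion Θ')
  obtain ⟨S, hSf, hS⟩ := exists_desc ρ hρ act (algebraMap F K) (algebraMap F K).injective fix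
    fin st
  -- the lattices outside of the poles of `t`
  obtain ⟨n₀, hn₀, hG⟩ : GVK (integralClosure (Algebra.adjoin κ {t}) E) (Submodule.span E S) :=
    gvk_big (Algebra.adjoin κ {t}) κ⟮t⟯ hρ χ0 χa act hgen fix h0
      (DF_mono hΘ₀ (by rw [Finset.coe_union]; exact Set.subset_union_left)) fin ne st hΔ hSf hS
  -- the lattices at the poles of `t`
  obtain ⟨n₁, hn₁, hG₁⟩ := assemble (k := integralClosure (Algebra.adjoin κ {t⁻¹}) E) B
    (fun 𝔭 h𝔭 => ((hB 𝔭).1 h𝔭).1) (W := Submodule.span E S)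
    (fun 𝔭 h𝔭 => hΘ' 𝔭 h𝔭 _ Δ (by
      intro x hx
      rw [Finset.mem_coe, Finset.mem_union, Finset.mem_biUnion]
      exact Or.inr ⟨𝔭, h𝔭, hx⟩) fin ne st hΔ S hSf hS) (P := fun _ => True) (n₀ := 1) le_rfl
    (fun m hm => ⟨(Submodule.span _ S) ^ m, (Submodule.fg_span hSf).pow m, by
      rw [one_mul]
      exact (SPN.span S).pow m, trivial⟩)
  obtain ⟨N₀, hfg₀, hsp₀, hR₀, hQ₀, hne₀⟩ := hG n₁ hn₁
  obtain ⟨N₁, -, hfg₁, hsp₁, -, -, hL, -⟩ := hG₁ n₀ hn₀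
  rw [mul_comm] at hsp₁
  -- the towers
  have hc0 : CHT t (N₀.restrictScalars κ) (Submodule.span E S ^ (n₀ * n₁)) := by
    refine cht_of (A := Algebra.adjoin κ {t}) ?_ ?_ ?_ hfg₀ hsp₀
    · exact ⟨⟨t, Algebra.self_mem_adjoin_singleton κ t⟩, rfl⟩
    · intro a
      obtain ⟨P, hP⟩ := adjQ_poly t a
      refine ⟨P, ?_⟩
      change algebraMap E F (a : E) = _
      rw [hP, ← aeval_algebraMap_apply]
    · intro a b hab
      apply Subtype.ext
      exact (algebraMap E F).injective hab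
  have hc1 : CHT t⁻¹ (N₁.restrictScalars κ) (Submodule.span E S ^ (n₀ * n₁)) := by
    refine cht_of (A := Algebra.adjoin κ {t⁻¹}) ?_ ?_ ?_ hfg₁ hsp₁
    · exact ⟨⟨t⁻¹, Algebra.self_mem_adjoin_singleton κ t⁻¹⟩, rfl⟩
    · intro a
      obtain ⟨P, hP⟩ := adjQ_poly t⁻¹ a
      refine ⟨P, ?_⟩
      change algebraMap E F (a : E) = _
      rw [hP, ← aeval_algebraMap_apply]
    · intro a b hab
      apply Subtype.ext
      exact (algebraMap E F).injective hab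
  refine hasModule_of_GL1' (GL1_of ht hc0 hc1) hne₀ hR₀ hQ₀ ?_
  -- regularity at infinity
  intro g hg hg0 𝒪 hloc hle hU
  have hk : ∀ r : integralClosure (Algebra.adjoin κ {t⁻¹}) E,
      algebraMap (integralClosure (Algebra.adjoin κ {t⁻¹}) E) F r ∈ 𝒪 :=
    fun r => hle (k_mem_CC (N := N₁) hg hg0 r)
  have h2 : (primeOf hloc (algebraMap (integralClosure (Algebra.adjoin κ {t⁻¹}) E) F) hk).IsPrime :=
    inferInstance
  obtain ⟨𝔭, hp, hle'⟩ := Ideal.exists_le_maximal _ h2.ne_top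
  have hb𝔭 : b ∈ 𝔭 := by
    apply hle'
    change ¬ U 𝒪 (algebraMap E F (b : E))
    rw [hb, map_inv₀]
    exact hU
  obtain ⟨L, hL1, hL2, -⟩ := hL 𝔭 ((hB 𝔭).2 ⟨hp, hb𝔭⟩)
  refine local_chart hL1 hL2 (fun s hs => ?_) hg hg0 hle
  by_contra hUs
  exact hs (hle' hUs)

end ff

end Pool.Agent.T9h3.Q
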