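import Pool.Agent.T9h3.P.Cha

/-!
# Lattices with regular charts from homogeneous coordinates
-/

set_option autoImplicit false
set_option linter.unusedSectionVars false
set_option linter.overlappingInstances false

namespace Pool.Agent.T9h3.Q

open Polynomial Pool.Agent.Y223.G Pool.Agent.R383.TM Pool.Agent.T9h3 Pool.Agent.T9h3.H
open Pool.Agent.T9h3.P
open Pool.Agent.Y290.G (Ine mem_Ine)

section mdl

variable {k O K G : Type} [CommRing k] [IsDomain k] [CommRing O] [IsDomain O]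
  [IsDedekindDomain O] [Field K] [Group G] [Algebra k O] [Algebra O K] [Algebra k K]
  [IsScalarTower k O K] {ρ : G →* (K ≃ₐ[k] K)} {T : G →* (O ≃ₐ[k] O)}

/-- **Models from homogeneous coordinates.** -/
theorem module_of [Finite G] [IsNoetherianRing k] (hG : GN k O K G ρ T) {m : ℕ}
    {z : Fin (m + 1) → K} (z0 : ∀ j, z j ≠ 0)
    (lin : ∀ g j, ρ g (z j) ∈ Submodule.span O (Set.range z))
    (reg : ∀ j, IsRegularRing (Algebra.adjoin O (Set.range fun i => z i / z j)))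
    {e : Ideal O → ℕ} {w : Ideal O → Fin (m + 1) → ℕ} (hD : R383.TM.WD k O K G ρ T z e w)
    {M Y : Type} [Field M] [Algebra M K] [Field Y] [Algebra k Y] (ι : Y →ₐ[k] K)
    (lo : ∀ o : O, ∃ x : M, algebraMap M K x = algebraMap O K o)
    (lf : ∀ x : M, ∃ a b : O, b ≠ 0 ∧ algebraMap M K x * algebraMap O K b = algebraMap O K a)
    (fixK : ∀ x, (∀ g, ρ g x = x) ↔ ∃ y, ι y = x)
    (hgen : IntermediateField.adjoin M (Set.range fun j => z j / z 0) = ⊤)
    (M₀ : Submodule k Y) (hM₀ : M₀.FG)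
    (hseg : Submodule.span M (ι '' (M₀ : Set Y)) = Submodule.span M (Set.range z)) :
    ∃ M' : Submodule k Y, M'.FG ∧ (∃ f ∈ M', f ≠ 0) ∧
      (∀ f ∈ M', f ≠ 0 → ∀ y : Y, ∃ b ∈ Pool.Agent.H918R2.Quad.chart k M' f,
        ∃ c ∈ Pool.Agent.H918R2.Quad.chart k M' f, c ≠ 0 ∧ y = b / c) ∧
      (∀ f ∈ M', f ≠ 0 → ∀ (q : Ideal (Pool.Agent.H918R2.Quad.chart k M' f)) [q.IsPrime],
        IsRegularLocalRing (Localization.AtPrime q)) ∧
      ∃ n : ℕ, 1 ≤ n ∧ (∀ y ∈ M', y ∈ sat (M₀ ^ n)) ∧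
        ∀ y : Y, y ∈ M₀ ^ n → ∃ s : k, s ≠ 0 ∧ s • y ∈ M' := by
  have hGH : GHN k O M Y K G Unit ι ρ T m (fun _ => z) := by
    refine
    { toGN := hG
      lo := lo
      lf := lf
      fixK := fixK
      z0 := fun _ => z0
      lin := fun g _ j => lin g j
      gen := ?_
      ld := ?_
      rg := ?_ }
    · rw [← hgen]
      congr 1
      ext y
      constructor
      · rintro ⟨-, j, h⟩
        exact ⟨j, h.symm⟩
      · rintro ⟨j, h⟩
        exact ⟨(), j, h.symm⟩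
    · intro S' ω hω
      have hS : S' = ∅ := by
        rw [Finset.eq_empty_iff_forall_notMem]
        intro ω' h
        exact hω (by cases ω; cases ω'; exact h)
      subst hS
      have h1 : {y : K | ∃ ω' ∈ (∅ : Finset Unit), ∃ j, y = z j / z 0} = ∅ := by
        ext y
        constructor
        · rintro ⟨ω', h, -⟩
          exact absurd h (Finset.notMem_empty _)
        · intro h
          exact absurd h (Set.notMem_empty _)
      rw [h1, IntermediateField.adjoin_empty, IntermediateField.bot_toSubalgebra]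
      exact Subalgebra.LinearDisjoint.bot_left _
    · intro J
      have h1 : {y : K | ∃ (ω : Unit) (i : Fin (m + 1)), y = z i / z (J ω)} =
          Set.range fun i => z i / z (J ()) := by
        ext y
        constructor
        · rintro ⟨ω, i, h⟩
          exact ⟨i, h.symm⟩
        · rintro ⟨i, h⟩
          exact ⟨(), i, h.symm⟩
      rw [h1]
      exact reg (J ())
  obtain ⟨M', h1, h2, h3, h4, h5⟩ := all_LINWN k O M Y K G Unit ι ρ T m (fun _ => z) hGH (by
    intro Y₂ K₂ _ _ _ _ ι₂ εY ε ρ₂ hext s hs Tb N _ 𝔔 p l τ π hs0 hloc hw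
    exact w_CHN all_CHW all_RWB Pool.Agent.Y614.H.RegL.t_REGL k O M Y Y₂ K K₂ G ι ι₂ εY ε ρ ρ₂
      hext T m z hGH e w hD s hs Tb N 𝔔 p l τ π hs0 hloc hw)
    M₀ hM₀ True (by
      intro _
      rw [hseg]
      congr 1
      ext y
      constructor
      · rintro ⟨j, h⟩
        refine ⟨fun _ => j, ?_⟩
        simpa using h
      · rintro ⟨J, h⟩
        refine ⟨J (), ?_⟩
        simpa using h)
  exact ⟨M', h1, h2, h3, h4, h5 trivial⟩

end mdl

/-- The lattices with regular charts. -/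
def GVK (k : Type) {E F : Type} [CommRing k] [Field E] [Field F] [Algebra k E] [Algebra E F]
    [Algebra k F] [IsScalarTower k E F] (W : Submodule E F) : Prop :=
  ∃ n : ℕ, 1 ≤ n ∧ ∀ m : ℕ, 1 ≤ m → ∃ N : Submodule k F, N.FG ∧ SPN N (W ^ (n * m)) ∧
    RCH (N : Set F) ∧ QCH (N : Set F) ∧ ∃ x ∈ N, x ≠ 0

section bas

variable (k O E M : Type) {K : Type} [CommRing k] [IsDomain k] [IsDedekindDomain k] [Field E]
  [Algebra k E] [IsFractionRing k E] [Field M] [Algebra E M] [FiniteDimensional E M]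
  [IsGalois E M] [CommRing O] [IsDomain O] [IsDedekindDomain O] [Algebra k O] [Algebra O M]
  [Algebra k M] [IsScalarTower k O M] [IsScalarTower k E M] [IsIntegralClosure O k M] [Field K]
  [Algebra M K] [Algebra E K] [IsScalarTower E M K] [Algebra k K] [IsScalarTower k E K]
  [Algebra O K] [IsScalarTower O M K] [IsScalarTower k O K]

lemma exists_char {O : Type} [CommRing O] (𝔓 : Ideal O) (h𝔓 : 𝔓.IsMaximal)
    (h : Finite (O ⧸ 𝔓)) : ∃ p : ℕ, p.Prime ∧ (p : O) ∈ 𝔓 := by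
  let _ := Ideal.Quotient.field 𝔓
  obtain ⟨p, hp⟩ := CharP.exists (O ⧸ 𝔓)
  have h1 : p ≠ 0 := CharP.char_ne_zero_of_finite (O ⧸ 𝔓) p
  have h2 := (CharP.char_is_prime_or_zero (O ⧸ 𝔓) p).resolve_right h1
  refine ⟨p, h2, ?_⟩
  rw [← Ideal.Quotient.eq_zero_iff_mem, map_natCast]
  exact CharP.cast_eq_zero _ p

/-- **The base.** -/
theorem gn_of' (ρ : (M ≃ₐ[E] M) →* (K ≃ₐ[E] K))
    (hρ : ∀ g x, ρ g (algebraMap M K x) = algebraMap M K (g x))
    (resf : ∀ 𝔓 : Ideal O, 𝔓.IsMaximal → 𝔓 ≠ ⊥ → Finite (O ⧸ 𝔓))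
    (hin : ∀ 𝔓 : Ideal O, 𝔓.IsMaximal → 𝔓 ≠ ⊥ → ∀ p : ℕ, p.Prime → (p : O) ∈ 𝔓 →
      ¬ p ^ 2 ∣ Nat.card (Ine (Tk k O E M) 𝔓)) :
    GN k O K (M ≃ₐ[E] M) (Rk k ρ) (Tk k O E M) := by
  have hOM : Function.Injective (algebraMap O M) := IsIntegralClosure.algebraMap_injective O k M
  have hkE : Function.Injective (algebraMap k E) := IsFractionRing.injective k E
  have fai : ∀ g, (∀ o, Tk k O E M g o = o) → g = 1 := by
    intro g hg
    have h1 : Tk k O E M g = Tk k O E M 1 := by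
      rw [map_one]
      ext o
      exact hg o
    exact (galRestrict k E M O).injective h1
  refine
  { fin := IsIntegralClosure.finite k E M O
    inj := ?_
    injk := ?_
    com := ?_
    fai := fai
    fix := ?_
    resf := resf
    inr := ?_ }
  · rw [IsScalarTower.algebraMap_eq O M K]
    exact (algebraMap M K).injective.comp hOM
  · rw [IsScalarTower.algebraMap_eq k E K]
    exact (algebraMap E K).injective.comp hkE
  · intro g o
    rw [Rk_apply, IsScalarTower.algebraMap_apply O M K, hρ, ← Tk_coe k O E M,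
      ← IsScalarTower.algebraMap_apply]
  · intro o ho
    have h1 : algebraMap O M o ∈ (⊥ : IntermediateField E M) := by
      rw [IsGalois.mem_bot_iff_fixed]
      intro g
      rw [← Tk_coe k O E M, ho]
    obtain ⟨e, he⟩ := IntermediateField.mem_bot.1 h1
    have hint : IsIntegral k e := by
      have h1 : IsIntegral k (algebraMap E M e) := by
        rw [he]
        exact IsIntegralClosure.isIntegral k M o |>.map (IsScalarTower.toAlgHom k O M)
      exact (isIntegral_algHom_iff (IsScalarTower.toAlgHom k E M) (algebraMap E M).injective).1 h1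
    obtain ⟨c, hc⟩ := (IsIntegrallyClosed.isIntegral_iff (R := k) (K := E)).1 hint
    refine ⟨c, ?_⟩
    apply hOM
    rw [← IsScalarTower.algebraMap_apply, IsScalarTower.algebraMap_apply k E M, hc, he]
  · intro 𝔓 h𝔓 h0
    obtain ⟨p, hp, hp𝔓⟩ := exists_char 𝔓 h𝔓 (resf 𝔓 h𝔓 h0)
    exact inr_of fai 𝔓 h𝔓 h0 (resf 𝔓 h𝔓 h0) hp hp𝔓 (hin 𝔓 h𝔓 h0 p hp hp𝔓)

end bas

section cha

variable {k O E M F K Λ : Type} [CommRing k] [IsDomain k]
  [IsDedekindDomain k] [Field E] [Field M] [Field F] [Field K] [CommRing O] [IsDomain O]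
  [IsDedekindDomain O] [Algebra E F]
  [Algebra k E] [Algebra k F] [IsScalarTower k E F] [IsFractionRing k E]
  [Algebra E M] [FiniteDimensional E M] [IsGalois E M] [Algebra k O] [Algebra O M]
  [Algebra k M] [IsScalarTower k O M] [IsScalarTower k E M] [IsIntegralClosure O k M]
  [Algebra M K] [Algebra E K] [IsScalarTower E M K] [Algebra k K] [IsScalarTower k E K]
  [Algebra O K] [IsScalarTower O M K] [IsScalarTower k O K] [Algebra F K] [IsScalarTower E F K]
  [IsScalarTower k F K]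
  [AddCommGroup Λ] [Module.Free ℤ Λ] [Module.Finite ℤ Λ] [DistribMulAction (M ≃ₐ[E] M) Λ]
  {χ : Λ → K} {Δ : Set Λ} {c : ℕ} {f : Fin c → AA O Λ}

/-- From coordinates to lattices. -/
theorem gvk_of_z {ρ : (M ≃ₐ[E] M) →* (K ≃ₐ[E] K)}
    (hG : GN k O K (M ≃ₐ[E] M) (Rk k ρ) (Tk k O E M)) {m : ℕ}
    {z : Fin (m + 1) → K} (z0 : ∀ j, z j ≠ 0)
    (lin : ∀ g j, ρ g (z j) ∈ Submodule.span O (Set.range z))
    (reg : ∀ j, IsRegularRing (Algebra.adjoin O (Set.range fun i => z i / z j)))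
    {e : Ideal O → ℕ} {w : Ideal O → Fin (m + 1) → ℕ}
    (hD : R383.TM.WD k O K (M ≃ₐ[E] M) (Rk k ρ) (Tk k O E M) z e w)
    (hgen : IntermediateField.adjoin M (Set.range fun j => z j / z 0) = ⊤)
    (fix : ∀ y, (∀ g, ρ g y = y) ↔ ∃ z : F, algebraMap F K z = y)
    {S : Set F} (hSf : S.Finite)
    (hS : Submodule.span M (algebraMap F K '' S) = Submodule.span M (Set.range z)) :
    GVK k (Submodule.span E S) := by
  have hfr : IsFractionRing O M := IsIntegralClosure.isFractionRing_of_finite_extension k E M O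
  obtain ⟨M', h1, h2, h3, h4, n, hn, h5, h6⟩ := module_of hG z0 lin reg hD (M := M) (Y := F)
    (IsScalarTower.toAlgHom k F K) (fun o => ⟨algebraMap O M o, by
      rw [← IsScalarTower.algebraMap_apply]⟩) (fun x => by
      obtain ⟨a, b, hb, rfl⟩ := IsFractionRing.div_surjective (A := O) x
      have hb0 : b ≠ 0 := nonZeroDivisors.ne_zero hb
      have hb1 : algebraMap O M b ≠ 0 := fun h => hb0 (IsFractionRing.injective O M (by
        rw [h, map_zero]))
      refine ⟨a, b, hb0, ?_⟩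
      rw [IsScalarTower.algebraMap_apply O M K b, IsScalarTower.algebraMap_apply O M K a, ← map_mul,
        div_mul_cancel₀ _ hb1]) fix hgen (Submodule.span k S) (Submodule.fg_span hSf) (by
      rw [← hS]
      apply le_antisymm
      · rw [Submodule.span_le]
        rintro _ ⟨y, hy, rfl⟩
        have hy' : y ∈ Submodule.span k S := hy
        clear hy
        change algebraMap F K y ∈ Submodule.span M (algebraMap F K '' S)
        induction hy' using Submodule.span_induction with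
        | mem y hy => exact Submodule.subset_span ⟨y, hy, rfl⟩
        | zero => rw [map_zero]; exact Submodule.zero_mem _
        | add x y _ _ hx hy => rw [map_add]; exact Submodule.add_mem _ hx hy
        | smul a x _ hx =>
          have e1 : algebraMap F K (a • x) = algebraMap k M a • algebraMap F K x := by
            rw [Algebra.smul_def, map_mul, ← IsScalarTower.algebraMap_apply, Algebra.smul_def,
              IsScalarTower.algebraMap_apply k E K, IsScalarTower.algebraMap_apply k E M,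
              ← IsScalarTower.algebraMap_apply E M K]
          rw [e1]
          exact Submodule.smul_mem _ _ hx
      · apply Submodule.span_mono
        rintro _ ⟨y, hy, rfl⟩
        exact ⟨y, Submodule.subset_span hy, rfl⟩)
  refine ⟨n, hn, fun m hm => ⟨M' ^ m, h1.pow m, ?_, ?_, ?_, ?_⟩⟩
  · have e1 : SPN M' (Submodule.span E S ^ n) :=
      SPN.sat ((SPN.span (k := k) S).pow n) h5 h6
    rw [pow_mul]
    exact e1.pow m
  · exact RCH_pow hm ((RCH_iff M').2 h4)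
  · exact QCH_pow hm h2 ((QCH_iff M').2 h3)
  · obtain ⟨f, hf, hf0⟩ := h2
    exact ⟨f ^ m, Submodule.pow_mem_pow _ hf m, pow_ne_zero _ hf0⟩

/-- **The lattices with wild ramification.** -/
theorem gvk_wild {ρ : (M ≃ₐ[E] M) →* (K ≃ₐ[E] K)}
    (hG : GN k O K (M ≃ₐ[E] M) (Rk k ρ) (Tk k O E M))
    (χ0 : χ 0 = 1) (χa : ∀ x y, χ (x + y) = χ x * χ y) (act : ∀ g x, ρ g (χ x) = χ (g • x))
    (hk : ∀ P : AddMonoidAlgebra M Λ, (P.coeff.sum fun x a => algebraMap M K a * χ x) = 0 ↔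
      P ∈ Ideal.span (Set.range fun r => AddMonoidAlgebra.mapRingHom Λ (algebraMap O M) (f r)))
    (hgen : IntermediateField.adjoin M (Set.range χ) = ⊤)
    (fix : ∀ y, (∀ g, ρ g y = y) ↔ ∃ z : F, algebraMap F K z = y)
    (hRG : RG f)
    (hW : ∀ (𝔓 : Ideal O) (p : ℕ) (g : M ≃ₐ[E] M), 𝔓.IsMaximal → p.Prime → (p : O) ∈ 𝔓 →
      orderOf g = p → (∀ o, Tk k O E M g o - o ∈ 𝔓) → H.WD (sA Λ g) 𝔓 f)
    {Θ : Set Λ} (hΘ : DF f Θ) (fin : Δ.Finite) (ne : Δ.Nonempty)
    (st : ∀ g : M ≃ₐ[E] M, ∀ x ∈ Δ, g • x ∈ Δ)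
    (h : ∀ g : M ≃ₐ[E] M, CVP (SVR (orderOf g) (sA Λ g) Θ Δ) Δ)
    {S : Set F} (hSf : S.Finite)
    (hS : Submodule.span M (algebraMap F K '' S) = Submodule.span M (χ '' Δ)) :
    GVK k (Submodule.span E S) := by
  have hfr : IsFractionRing O M := IsIntegralClosure.isFractionRing_of_finite_extension k E M O
  obtain ⟨φ, hφ⟩ := exists_ev (K := K) O χ0 χa
  have hH := HK_of (M := M) hφ χ0 χa hk
  have hT : TSN k O K (M ≃ₐ[E] M) Λ (Rk k ρ) (Tk k O E M) χ Δ :=
    tsn_of hG χ0 χa act hφ hH hRG (fun 𝔓 g h𝔓 hg => by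
      obtain ⟨h1, h2⟩ := wildN hG h𝔓 hg
      exact hW 𝔓 _ g h𝔓 h1 h2 rfl hg.2.1) hΘ fin ne st h
  obtain ⟨m, z, Z⟩ := exists_zN (ρ := Rk k ρ) χ0 χa act fin st ne
  refine gvk_of_z hG Z.z0 (fun g j => Z.lin hT g j) (fun j => Z.hreg hT j) (hT.data Z)
    (Z.gen χ0 χa hT.bs hgen) fix hSf ?_
  rw [hS, ← Submodule.span_span_of_tower ℤ M (χ '' Δ), ← Z.span', Submodule.span_span_of_tower]

/-- The charts of the closure are regular. -/
theorem cr_of {φ : AA O Λ →ₐ[O] K} {c : ℕ} {F : Fin c → AA O Λ}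
    (χ0 : χ 0 = 1) (χa : ∀ x y, χ (x + y) = χ x * χ y) (hφ : ∀ x, φ (cx O x) = χ x) (H : HK φ F)
    (hRG : RG F) {Θ : Set Λ} (hΘ : DF F Θ) {g : M ≃ₐ[E] M}
    (h : CVP (SVR (orderOf g) (sA Λ g) Θ Δ) Δ) :
    CVP (fun v => v ∈ Δ ∧ IsRegularRing (CG0 O χ Δ (χ v))) Δ := by
  classical
  have hF0 : ∀ r, F r ≠ 0 := by
    intro r hr
    have hQ : (RingHom.ker φ.toRingHom).IsPrime := RingHom.ker_isPrime φ.toRingHom
    have h1 := hRG 0 (RingHom.ker φ.toRingHom) hQ (fun r => by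
      rw [ini_zero, RingHom.mem_ker]
      exact H.z r) (fun r' => if r' = r then 1 else 0) (by
      have h2 : ∑ r', (if r' = r then (1 : AA O Λ) else 0) * ini 0 (F r') = 0 := by
        refine Finset.sum_eq_zero fun r' _ => ?_
        split_ifs with h
        · rw [ini_zero, h, hr, mul_zero]
        · rw [zero_mul]
      rw [h2]
      exact Ideal.zero_mem _) r
    rw [if_pos rfl] at h1
    exact hQ.ne_top ((Ideal.eq_top_iff_one _).2 h1)
  intro m hm
  obtain ⟨S, h1, h2, h3⟩ := h m hm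
  refine ⟨S, h1, fun v hv => ?_, h3⟩
  obtain ⟨ι, hι, b, hc, -, hb⟩ := h2 v hv
  obtain ⟨u, hu⟩ := exists_MN hΘ hF0 hb
  have hinj : Function.Injective (eA (O := O) b) := by
    obtain ⟨𝕂, _, _, φ0, χ0', σ0, e0, h0⟩ := exists_amb (O := O) (Λ := Λ) b
      (t := RingHom.id _) Function.injective_id (s := 1) Function.injective_id
    have h1 : LinearIndependent O (φ0.toLinearMap ∘ (cx O : Λ → AA O Λ)) :=
      cx_lin.map' φ0.toLinearMap (LinearMap.ker_eq_bot.2 h0)
    have h2 : (φ0.toLinearMap ∘ (cx O : Λ → AA O Λ)) = χ0' := by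
      funext x
      exact e0.c x
    rw [h2] at h1
    have h3 := ev_inj e0.χ0 e0.χa h1 b
    intro f g hfg
    apply h3
    rw [ev_eA e0.c, ev_eA e0.c, hfg]
  exact ⟨hc.vm, CG0_regH hφ χ0 χa hinj H hc hu hRG⟩

/-- **The lattices without wild ramification.** -/
theorem gvk_tame {ρ : (M ≃ₐ[E] M) →* (K ≃ₐ[E] K)}
    (hG : GN k O K (M ≃ₐ[E] M) (Rk k ρ) (Tk k O E M))
    (hT : ∀ (𝔓 : Ideal O) (g : M ≃ₐ[E] M), 𝔓.IsMaximal → g ≠ 1 → ¬ Wild (Tk k O E M) g 𝔓)
    (χ0 : χ 0 = 1) (χa : ∀ x y, χ (x + y) = χ x * χ y)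
    (act : ∀ g x, ∃ u : O, ρ g (χ x) = algebraMap O K u * χ (g • x))
    (hk : ∀ P : AddMonoidAlgebra M Λ, (P.coeff.sum fun x a => algebraMap M K a * χ x) = 0 ↔
      P ∈ Ideal.span (Set.range fun r => AddMonoidAlgebra.mapRingHom Λ (algebraMap O M) (f r)))
    (hgen : IntermediateField.adjoin M (Set.range χ) = ⊤)
    (fix : ∀ y, (∀ g, ρ g y = y) ↔ ∃ z : F, algebraMap F K z = y)
    (hRG : RG f)
    {Θ : Set Λ} (hΘ : DF f Θ) (fin : Δ.Finite) (ne : Δ.Nonempty)
    (st : ∀ g : M ≃ₐ[E] M, ∀ x ∈ Δ, g • x ∈ Δ)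
    (h : ∀ g : M ≃ₐ[E] M, CVP (SVR (orderOf g) (sA Λ g) Θ Δ) Δ)
    {S : Set F} (hSf : S.Finite)
    (hS : Submodule.span M (algebraMap F K '' S) = Submodule.span M (χ '' Δ)) :
    GVK k (Submodule.span E S) := by
  classical
  have hfr : IsFractionRing O M := IsIntegralClosure.isFractionRing_of_finite_extension k E M O
  obtain ⟨φ, hφ⟩ := exists_ev (K := K) O χ0 χa
  have hH := HK_of (M := M) hφ χ0 χa hk
  have hcr := cr_of χ0 χa hφ hH hRG hΘ (h 1)
  obtain ⟨D, hD⟩ : ∃ D : Finset Λ, (D : Set Λ) = Δ := ⟨fin.toFinset, fin.coe_toFinset⟩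
  have hcard : 0 < D.card := by
    rw [Finset.card_pos, ← Finset.coe_nonempty, hD]
    exact ne
  obtain ⟨m, hm⟩ : ∃ m, D.card = m + 1 := ⟨_, (Nat.sub_add_cancel hcard).symm⟩
  let e : Fin (m + 1) ≃ D := (finCongr hm.symm).trans D.equivFin.symm
  obtain ⟨z, hz⟩ : ∃ z : Fin (m + 1) → K, z = fun j => χ (e j : Λ) := ⟨_, rfl⟩
  have hzr : Set.range z = χ '' Δ := by
    rw [← hD, hz]
    ext y
    constructor
    · rintro ⟨j, rfl⟩
      exact ⟨e j, (e j).2, rfl⟩
    · rintro ⟨x, hx, rfl⟩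
      refine ⟨e.symm ⟨x, hx⟩, ?_⟩
      change χ ((e (e.symm ⟨x, hx⟩) : D) : Λ) = χ x
      rw [Equiv.apply_symm_apply]
  have hzΔ : ∀ j, ∃ x ∈ Δ, z j = χ x := by
    intro j
    have h1 : z j ∈ χ '' Δ := by
      rw [← hzr]
      exact ⟨j, rfl⟩
    obtain ⟨x, hx, h2⟩ := h1
    exact ⟨x, hx, h2.symm⟩
  have z0 : ∀ j, z j ≠ 0 := by
    intro j
    obtain ⟨x, -, h1⟩ := hzΔ j
    rw [h1]
    exact chi_ne χ0 χa x
  refine gvk_of_z hG (z := z) z0 ?_ ?_ (e := fun _ => 1) (w := fun _ _ => 0) ?_ ?_ fix hSf ?_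
  · intro g j
    obtain ⟨x, hx, h1⟩ := hzΔ j
    obtain ⟨u, hu⟩ := act g x
    rw [h1, hu, hzr, ← Algebra.smul_def]
    exact Submodule.smul_mem _ _ (Submodule.subset_span ⟨_, st g x hx, rfl⟩)
  · intro j
    have h1 : (Set.range fun i => z i / z j) = {y | ∃ m ∈ Δ, y = χ m / z j} := by
      ext y
      constructor
      · rintro ⟨i, rfl⟩
        obtain ⟨x, hx, h1⟩ := hzΔ i
        exact ⟨x, hx, by rw [← h1]⟩
      · rintro ⟨x, hx, rfl⟩
        have h2 : χ x ∈ Set.range z := by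
          rw [hzr]
          exact ⟨x, hx, rfl⟩
        obtain ⟨i, hi⟩ := h2
        exact ⟨i, by rw [← hi]⟩
    rw [h1]
    refine CG0_regP χ0 χa fin hcr (z0 j) ?_
    obtain ⟨x, hx, h1⟩ := hzΔ j
    rw [h1]
    exact Submodule.subset_span ⟨x, hx, rfl⟩
  · refine ⟨fun _ => Nat.one_pos, ?_, ?_, ?_⟩
    · rintro 𝔓 h𝔓 ⟨g, hg1, hg⟩
      exact absurd hg (hT 𝔓 g h𝔓 hg1)
    · rintro 𝔓 h𝔓 ⟨g, hg1, hg⟩
      exact absurd hg (hT 𝔓 g h𝔓 hg1)
    · intro 𝔓 h𝔓 g hg1 hg
      exact absurd hg (hT 𝔓 g h𝔓 hg1)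
  · -- the coordinates generate the function field
    rw [eq_top_iff, ← hgen]
    rw [IntermediateField.adjoin_le_iff]
    obtain ⟨L, hL⟩ : ∃ L : IntermediateField M K,
      L = IntermediateField.adjoin M (Set.range fun j => z j / z 0) := ⟨_, rfl⟩
    rw [← hL]
    have h2 : ∀ x ∈ Δ, χ x / z 0 ∈ L := by
      intro x hx
      have h3 : χ x ∈ Set.range z := by
        rw [hzr]
        exact ⟨x, hx, rfl⟩
      obtain ⟨i, hi⟩ := h3
      rw [hL, ← hi]
      exact IntermediateField.subset_adjoin _ _ ⟨i, rfl⟩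
    obtain ⟨v, hv⟩ := ne
    obtain ⟨Sv, hS0, hSv, -⟩ := h 1 _ hv
    obtain ⟨v', hv'⟩ := Multiset.exists_mem_of_ne_zero hS0
    obtain ⟨ι, hι, b, hc, -, -⟩ := hSv v' hv'
    have hv0 := chi_ne χ0 χa v'
    have h3 : ∀ i, χ (b i) ∈ L := by
      intro i
      have h4 : χ (b i) = (χ (v' + b i) / z 0) / (χ v' / z 0) := by
        have := z0 0
        rw [χa]
        field_simp
      rw [h4]
      exact L.div_mem (h2 _ (hc.nb i)) (h2 _ hc.vm)
    rintro _ ⟨x, rfl⟩
    rw [← b.sum_repr x, chi_sum χ0 χa]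
    refine prod_mem fun i _ => ?_
    rw [chi_zsmul χ0 χa]
    exact zpow_mem (h3 i) _
  · rw [hS, hzr]

end cha

end Pool.Agent.T9h3.Q
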