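import Pool.Agent.T9h3.Q.Big
import Mathlib.NumberTheory.NumberField.Basic
import Mathlib.RingTheory.Localization.Away.Basic

/-!
# Number fields
-/

set_option autoImplicit false
set_option linter.unusedSectionVars false
set_option linter.overlappingInstances false
set_option linter.unusedVariables false

namespace Pool.Agent.T9h3.Q

open Pool.Agent.Y223.G Pool.Agent.R383.TM Pool.Agent.T9h3 Pool.Agent.T9h3.H
open Pool.Agent.T9h3.P Pool.Agent.H918R2.Quad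
open scoped NumberField

section zn

variable {n : ℕ}

lemma Zn_den (hn : n ≠ 0) (y : Algebra.adjoin ℤ {(n : ℚ)⁻¹}) :
    ∃ (j : ℕ) (z : ℤ), (n : ℚ) ^ j * (y : ℚ) = z := by
  obtain ⟨y, hy⟩ := y
  change ∃ (j : ℕ) (z : ℤ), (n : ℚ) ^ j * y = z
  have hn' : (n : ℚ) ≠ 0 := by exact_mod_cast hn
  induction hy using Algebra.adjoin_induction with
  | mem x hx =>
    rw [Set.mem_singleton_iff] at hx
    refine ⟨1, 1, ?_⟩
    rw [hx, pow_one, mul_inv_cancel₀ hn']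
    norm_num
  | algebraMap r => exact ⟨0, r, by simp⟩
  | add x y _ _ hx hy =>
    obtain ⟨i, a, ha⟩ := hx
    obtain ⟨j, b, hb⟩ := hy
    refine ⟨i + j, n ^ j * a + n ^ i * b, ?_⟩
    push_cast
    rw [← ha, ← hb]
    ring
  | mul x y _ _ hx hy =>
    obtain ⟨i, a, ha⟩ := hx
    obtain ⟨j, b, hb⟩ := hy
    refine ⟨i + j, a * b, ?_⟩
    push_cast
    rw [← ha, ← hb]
    ring

lemma Zn_loc (hn : n ≠ 0) :
    IsLocalization (Submonoid.powers (n : ℤ)) (Algebra.adjoin ℤ {(n : ℚ)⁻¹}) := by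
  have hn' : (n : ℚ) ≠ 0 := by exact_mod_cast hn
  refine ⟨?_, ?_, ?_⟩
  · rintro ⟨_, j, rfl⟩
    refine IsUnit.of_mul_eq_one ((⟨(n : ℚ)⁻¹, Algebra.self_mem_adjoin_singleton ℤ _⟩ :
      Algebra.adjoin ℤ {(n : ℚ)⁻¹}) ^ j) (Subtype.ext ?_)
    change (((n : ℤ) ^ j : ℤ) : ℚ) * ((n : ℚ)⁻¹) ^ j = 1
    push_cast
    rw [← mul_pow, mul_inv_cancel₀ hn', one_pow]
  · intro y
    obtain ⟨j, z, hz⟩ := Zn_den hn y
    refine ⟨⟨z, ⟨(n : ℤ) ^ j, j, rfl⟩⟩, Subtype.ext ?_⟩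
    change (y : ℚ) * (((n : ℤ) ^ j : ℤ) : ℚ) = ((z : ℤ) : ℚ)
    push_cast
    rw [mul_comm]
    exact hz
  · intro a b hab
    refine ⟨1, ?_⟩
    have h1 : ((a : ℤ) : ℚ) = ((b : ℤ) : ℚ) := congrArg Subtype.val hab
    have h2 : a = b := by exact_mod_cast h1
    rw [h2]

lemma Zn_ded (hn : n ≠ 0) : IsDedekindDomain (Algebra.adjoin ℤ {(n : ℚ)⁻¹}) := by
  have h1 := Zn_loc hn
  refine IsLocalization.isDedekindDomain ℤ (M := Submonoid.powers (n : ℤ)) ?_ _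
  apply powers_le_nonZeroDivisors_of_noZeroDivisors
  exact_mod_cast hn

lemma Zn_frac : IsFractionRing (Algebra.adjoin ℤ {(n : ℚ)⁻¹}) ℚ := by
  refine IsFractionRing.of_field _ _ fun z => ?_
  refine ⟨algebraMap ℤ _ z.num, algebraMap ℤ _ (z.den : ℤ), ?_⟩
  have h1 : ∀ a : ℤ, algebraMap (Algebra.adjoin ℤ {(n : ℚ)⁻¹}) ℚ (algebraMap ℤ _ a) = (a : ℚ) :=
    fun a => rfl
  rw [h1, h1]
  push_cast
  exact (Rat.num_div_den z).symm

lemma Zn_ft : Algebra.FiniteType ℤ (Algebra.adjoin ℤ {(n : ℚ)⁻¹}) := by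
  rw [← Subalgebra.fg_iff_finiteType]
  exact ⟨{(n : ℚ)⁻¹}, by simp⟩

end zn

section nf

variable {E M F K Λ : Type} [Field E] [NumberField E] [Field M] [CharZero M] [Algebra E M]
  [FiniteDimensional E M] [IsGalois E M] [Field F] [Field K] [Algebra E F] [Algebra (𝓞 E) F]
  [IsScalarTower (𝓞 E) E F] [Algebra M K]
  [Algebra E K] [IsScalarTower E M K] [Algebra F K] [IsScalarTower E F K] [AddCommGroup Λ]
  [Module.Free ℤ Λ] [Module.Finite ℤ Λ] [DistribMulAction (M ≃ₐ[E] M) Λ] {χ : Λ → K}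
  {ρ : (M ≃ₐ[E] M) →* (K ≃ₐ[E] K)}

/-- **Subvarieties of tori over number fields.** -/
theorem nf_hasModule {n : ℕ} (hn : n ≠ 0)
    (hρ : ∀ g x, ρ g (algebraMap M K x) = algebraMap M K (g x))
    (fix : ∀ y, (∀ g, ρ g y = y) ↔ ∃ z : F, algebraMap F K z = y)
    (χ0 : χ 0 = 1) (χa : ∀ x y, χ (x + y) = χ x * χ y) (act : ∀ g x, ρ g (χ x) = χ (g • x))
    (hgen : IntermediateField.adjoin M (Set.range χ) = ⊤)
    {c₀ : ℕ} {f₀ : Fin c₀ → AA (integralClosure (Algebra.adjoin ℤ {(n : ℚ)⁻¹}) M) Λ}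
    (h0 : NDG E χ (fun _ => (1 : M)) f₀)
    (h1 : ∀ V : ValuationSubring E, (n : E)⁻¹ ∉ V → ∃ (a : Λ → M) (c : ℕ)
      (f : Fin c → AA (integralClosure V M) Λ), NDG E χ a f) :
    HasModule (𝓞 E) F := by
  classical
  have hnE : (n : E) ≠ 0 := by exact_mod_cast hn
  have hnO : (n : 𝓞 E) ≠ 0 := by
    intro h
    apply hnE
    have := congrArg (algebraMap (𝓞 E) E) h
    simpa using this
  obtain ⟨B, hB⟩ := exists_primes hnO
  -- the local data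
  have hloc : ∀ 𝔭 ∈ B, ∃ Θ' : Finset Λ, ∀ (Θ Δ : Set Λ), (Θ' : Set Λ) ⊆ Θ → Δ.Finite → Δ.Nonempty →
      (∀ g : M ≃ₐ[E] M, ∀ x ∈ Δ, g • x ∈ Δ) →
      (∀ g : M ≃ₐ[E] M, CVP (SVR (orderOf g) (sA Λ g) Θ Δ) Δ) → ∀ S : Set F, S.Finite →
      Submodule.span M (algebraMap F K '' S) = Submodule.span M (χ '' Δ) →
      GLK 𝔭 (Submodule.span E S) := by
    intro 𝔭 h𝔭
    obtain ⟨hmax, hn𝔭⟩ := (hB 𝔭).1 h𝔭
    have h𝔭0 : 𝔭 ≠ ⊥ := by
      rintro rfl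
      exact hnO hn𝔭
    obtain ⟨V, hV⟩ := exists_VP (E := E) 𝔭 hmax h𝔭0
    have hnV : (n : E)⁻¹ ∉ V := by
      rcases (hV.iff _).1 hn𝔭 with h2 | h2
      · exfalso
        rw [map_natCast] at h2
        exact hnE h2
      · rwa [map_natCast] at h2
    obtain ⟨a, c, f, hN⟩ := h1 V hnV
    obtain ⟨Θ', hΘ'⟩ := exists_DFN f
    refine ⟨Θ', fun Θ Δ hΘ fin ne st h S hSf hS => ?_⟩
    have hfin : Finite (𝓞 E ⧸ 𝔭) := Ideal.finiteQuotientOfFreeOfNeBot 𝔭 h𝔭0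
    exact hV.glk_of hfin hρ χ0 χa act hgen fix hN (DF_mono hΘ' hΘ) fin ne st h hSf hS
  choose! Θ' hΘ' using hloc
  obtain ⟨Θ₀, hΘ₀⟩ := exists_DFN f₀
  obtain ⟨Δ, fin, ne, st, hΔ⟩ := exists_polyN (M ≃ₐ[E] M) Λ (Θ₀ ∪ B.biUnion Θ')
  obtain ⟨S, hSf, hS⟩ := exists_desc ρ hρ act (algebraMap F K) (algebraMap F K).injective fix
    fin st
  have i1 := Zn_ded hn
  have i2 := Zn_frac (n := n)
  have i3 := Zn_ft (n := n)
  have i4 := B_frac (Algebra.adjoin ℤ {(n : ℚ)⁻¹}) ℚ E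
  have i5 := Zn_loc hn
  have hG : GVK (integralClosure (Algebra.adjoin ℤ {(n : ℚ)⁻¹}) E) (Submodule.span E S) :=
    gvk_big (Algebra.adjoin ℤ {(n : ℚ)⁻¹}) ℚ hρ χ0 χa act hgen fix h0
      (DF_mono hΘ₀ (by rw [Finset.coe_union]; exact Set.subset_union_left)) fin ne st hΔ hSf hS
  refine hasModule_of_local (E := E) ?_ (b := (n : 𝓞 E)) (W := Submodule.span E S) hB
    (fun 𝔭 h𝔭 => hΘ' 𝔭 h𝔭 _ Δ ?_ fin ne st hΔ S hSf hS) (big_of hnO ?_ ?_ hG)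
  · rw [IsScalarTower.algebraMap_eq (𝓞 E) E F]
    exact (algebraMap E F).injective.comp (IsFractionRing.injective (𝓞 E) E)
  · intro x hx
    rw [Finset.mem_coe, Finset.mem_union, Finset.mem_biUnion]
    exact Or.inr ⟨𝔭, h𝔭, hx⟩
  · intro x
    have h2 : IsIntegral ℤ (x : E) := x.2
    exact ⟨⟨x, h2.tower_top⟩, rfl⟩
  · intro x
    obtain ⟨⟨_, j, rfl⟩, hm⟩ := IsIntegral.exists_multiple_integral_of_isLocalization
      (Submonoid.powers (n : ℤ)) (Rₘ := Algebra.adjoin ℤ {(n : ℚ)⁻¹}) (x : E) x.2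
    refine ⟨j, ⟨_, hm⟩, ?_⟩
    change algebraMap (𝓞 E) E (n : 𝓞 E) ^ j * (x : E) = (((n : ℤ) ^ j : ℤ)) • (x : E)
    rw [zsmul_eq_mul, map_natCast]
    push_cast
    rfl

end nf

end Pool.Agent.T9h3.Q
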