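import Pool.Agent.T9h3.Q.Val

/-!
# The places
-/

set_option autoImplicit false
set_option linter.unusedSectionVars false
set_option linter.overlappingInstances false
set_option linter.unusedVariables false

namespace Pool.Agent.T9h3.Q

open Pool.Agent.Y223.G Pool.Agent.R383.TM Pool.Agent.T9h3 Pool.Agent.T9h3.H
open Pool.Agent.T9h3.P
open Pool.Agent.Y290.G (Ine mem_Ine)

section tk

variable {k O E M : Type} [CommRing k] [IsDomain k] [IsDedekindDomain k] [Field E]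
  [Algebra k E] [IsFractionRing k E] [Field M] [Algebra E M] [FiniteDimensional E M]
  [IsGalois E M] [CommRing O] [IsDomain O] [IsDedekindDomain O] [Algebra k O] [Algebra O M]
  [Algebra k M] [IsScalarTower k O M] [IsScalarTower k E M] [IsIntegralClosure O k M]

/-- The inertia group. -/
def InS (E M : Type) {O : Type} [CommRing O] [Field E] [Field M] [Algebra E M] [Algebra O M]
    (𝔓 : Ideal O) : Set (M ≃ₐ[E] M) :=
  {g | ∀ o : O, ∃ e ∈ 𝔓, algebraMap O M e = g (algebraMap O M o) - algebraMap O M o}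

lemma Tk_iff (𝔓 : Ideal O) (g : M ≃ₐ[E] M) :
    (∀ o, Tk k O E M g o - o ∈ 𝔓) ↔ g ∈ InS E M 𝔓 := by
  have hinj : Function.Injective (algebraMap O M) := IsIntegralClosure.algebraMap_injective O k M
  have h1 : ∀ o : O, algebraMap O M (Tk k O E M g o - o) =
      g (algebraMap O M o) - algebraMap O M o := by
    intro o
    rw [map_sub, Tk_coe]
  constructor
  · intro hg o
    exact ⟨_, hg o, h1 o⟩
  · intro hg o
    obtain ⟨e, he, heo⟩ := hg o
    have h2 : e = Tk k O E M g o - o := by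
      apply hinj
      rw [heo, h1]
    rw [← h2]
    exact he

lemma Ine_card (𝔓 : Ideal O) : Nat.card (Ine (Tk k O E M) 𝔓) = Nat.card (InS E M 𝔓) := by
  have h1 : ((Ine (Tk k O E M) 𝔓 : Subgroup (M ≃ₐ[E] M)) : Set (M ≃ₐ[E] M)) = InS E M 𝔓 := by
    ext g
    exact Tk_iff 𝔓 g
  exact congrArg (fun S : Set (M ≃ₐ[E] M) => Nat.card S) h1

end tk

/-- The nondegenerate equations over `O`. -/
structure NDG (E : Type) {M K O Λ : Type} [Field E] [Field M] [Field K] [CommRing O] [Algebra E M]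
    [Algebra M K] [Algebra O M] [AddCommGroup Λ] [DistribMulAction (M ≃ₐ[E] M) Λ]
    (χ : Λ → K) (a : Λ → M) {c : ℕ} (f : Fin c → AA O Λ) : Prop where
  hin : ∀ 𝔓 : Ideal O, 𝔓.IsMaximal → ∀ p : ℕ, p.Prime → (p : O) ∈ 𝔓 →
    ¬ p ^ 2 ∣ Nat.card (InS E M 𝔓)
  a0 : a 0 = 1
  aa : ∀ x y, a (x + y) = a x * a y
  hk : ∀ P : AddMonoidAlgebra M Λ,
    (P.coeff.sum fun x b => algebraMap M K b * (algebraMap M K (a x) * χ x)) = 0 ↔
      P ∈ Ideal.span (Set.range fun r => AddMonoidAlgebra.mapRingHom Λ (algebraMap O M) (f r))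
  hRG : RG f
  hW : ∀ (𝔓 : Ideal O) (p : ℕ) (g : M ≃ₐ[E] M), 𝔓.IsMaximal → p.Prime → (p : O) ∈ 𝔓 →
      orderOf g = p → g ∈ InS E M 𝔓 → H.WD (sA Λ g) 𝔓 f
  eq : (∀ (g : M ≃ₐ[E] M) x, g (a x) = a (g • x)) ∨
    ((∀ (𝔓 : Ideal O) (p : ℕ) (g : M ≃ₐ[E] M), 𝔓.IsMaximal → p.Prime → (p : O) ∈ 𝔓 →
      g ∈ InS E M 𝔓 → orderOf g ≠ p) ∧
    ∀ (g : M ≃ₐ[E] M) x, ∃ u : O, g (a x) = algebraMap O M u * a (g • x))

section

variable {k O E M F K Λ : Type} [CommRing k] [IsDomain k]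
  [IsDedekindDomain k] [Field E] [Field M] [Field F] [Field K] [CommRing O] [IsDomain O]
  [IsDedekindDomain O] [Algebra E F]
  [Algebra k E] [Algebra k F] [IsScalarTower k E F] [IsFractionRing k E]
  [Algebra E M] [FiniteDimensional E M] [IsGalois E M] [Algebra k O] [Algebra O M]
  [Algebra k M] [IsScalarTower k O M] [IsScalarTower k E M] [IsIntegralClosure O k M]
  [Algebra M K] [Algebra E K] [IsScalarTower E M K] [Algebra k K] [IsScalarTower k E K]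
  [Algebra O K] [IsScalarTower O M K] [IsScalarTower k O K] [Algebra F K] [IsScalarTower E F K]
  [IsScalarTower k F K]
  [AddCommGroup Λ] [Module.Free ℤ Λ] [Module.Finite ℤ Λ] [DistribMulAction (M ≃ₐ[E] M) Λ]
  {χ : Λ → K} {Δ : Set Λ} {c : ℕ} {f : Fin c → AA O Λ} {a : Λ → M}

/-- **The lattices of nondegenerate subvarieties.** -/
theorem gvk_of {ρ : (M ≃ₐ[E] M) →* (K ≃ₐ[E] K)}
    (hρ : ∀ g x, ρ g (algebraMap M K x) = algebraMap M K (g x))
    (resf : ∀ 𝔓 : Ideal O, 𝔓.IsMaximal → 𝔓 ≠ ⊥ → Finite (O ⧸ 𝔓))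
    (χ0 : χ 0 = 1) (χa : ∀ x y, χ (x + y) = χ x * χ y) (act : ∀ g x, ρ g (χ x) = χ (g • x))
    (hgen : IntermediateField.adjoin M (Set.range χ) = ⊤)
    (fix : ∀ y, (∀ g, ρ g y = y) ↔ ∃ z : F, algebraMap F K z = y)
    (N : NDG E χ a f)
    {Θ : Set Λ} (hΘ : DF f Θ) (fin : Δ.Finite) (ne : Δ.Nonempty)
    (st : ∀ g : M ≃ₐ[E] M, ∀ x ∈ Δ, g • x ∈ Δ)
    (h : ∀ g : M ≃ₐ[E] M, CVP (SVR (orderOf g) (sA Λ g) Θ Δ) Δ)
    {S : Set F} (hSf : S.Finite)
    (hS : Submodule.span M (algebraMap F K '' S) = Submodule.span M (χ '' Δ)) :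
    GVK k (Submodule.span E S) := by
  have hin' : ∀ 𝔓 : Ideal O, 𝔓.IsMaximal → 𝔓 ≠ ⊥ → ∀ p : ℕ, p.Prime → (p : O) ∈ 𝔓 →
      ¬ p ^ 2 ∣ Nat.card (Ine (Tk k O E M) 𝔓) := by
    intro 𝔓 h𝔓 _ p hp hp𝔓
    rw [Ine_card]
    exact N.hin 𝔓 h𝔓 p hp hp𝔓
  have hG := gn_of' k O E M ρ hρ resf hin'
  have ha0 : ∀ x, a x ≠ 0 := by
    intro x hx
    have h1 : a (x + -x) = 1 := by rw [add_neg_cancel, N.a0]
    rw [N.aa, hx, zero_mul] at h1
    exact zero_ne_one h1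
  obtain ⟨χv, hχv⟩ : ∃ χv : Λ → K, χv = fun x => algebraMap M K (a x) * χ x := ⟨_, rfl⟩
  have hχx : ∀ x, χv x = algebraMap M K (a x) * χ x := fun x => by rw [hχv]
  have e0 : χv 0 = 1 := by rw [hχx, N.a0, map_one, χ0, one_mul]
  have ea : ∀ x y, χv (x + y) = χv x * χv y := by
    intro x y
    rw [hχx, hχx, hχx, N.aa, χa, map_mul]
    ring
  have hk : ∀ P : AddMonoidAlgebra M Λ, (P.coeff.sum fun x b => algebraMap M K b * χv x) = 0 ↔
      P ∈ Ideal.span (Set.range fun r => AddMonoidAlgebra.mapRingHom Λ (algebraMap O M) (f r)) := by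
    intro P
    rw [← N.hk, hχv]
  have hgen' : IntermediateField.adjoin M (Set.range χv) = ⊤ := by
    rw [eq_top_iff, ← hgen, IntermediateField.adjoin_le_iff]
    rintro _ ⟨x, rfl⟩
    have h1 : χ x = algebraMap M K (a x)⁻¹ * χv x := by
      rw [hχx, ← mul_assoc, ← map_mul, inv_mul_cancel₀ (ha0 x), map_one, one_mul]
    rw [h1]
    exact mul_mem (IntermediateField.algebraMap_mem _ _)
      (IntermediateField.subset_adjoin _ _ ⟨x, rfl⟩)
  have hS' : Submodule.span M (algebraMap F K '' S) = Submodule.span M (χv '' Δ) := by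
    rw [hS]
    apply le_antisymm
    · rw [Submodule.span_le]
      rintro _ ⟨x, hx, rfl⟩
      have h1 : χ x = (a x)⁻¹ • χv x := by
        rw [Algebra.smul_def, hχx, ← mul_assoc, ← map_mul, inv_mul_cancel₀ (ha0 x), map_one,
          one_mul]
      rw [h1]
      exact Submodule.smul_mem _ _ (Submodule.subset_span ⟨x, hx, rfl⟩)
    · rw [Submodule.span_le]
      rintro _ ⟨x, hx, rfl⟩
      rw [hχx, ← Algebra.smul_def]
      exact Submodule.smul_mem _ _ (Submodule.subset_span ⟨x, hx, rfl⟩)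
  rcases N.eq with heq | ⟨hnw, heq⟩
  · have act' : ∀ g x, ρ g (χv x) = χv (g • x) := by
      intro g x
      rw [hχx, hχx, map_mul, hρ, act, heq]
    exact gvk_wild hG e0 ea act' hk hgen' fix N.hRG (fun 𝔓 p g h𝔓 hp hp𝔓 ho hg =>
      N.hW 𝔓 p g h𝔓 hp hp𝔓 ho ((Tk_iff 𝔓 g).1 hg)) hΘ fin ne st h hSf hS'
  · have act' : ∀ g x, ∃ u : O, ρ g (χv x) = algebraMap O K u * χv (g • x) := by
      intro g x
      obtain ⟨u, hu⟩ := heq g x
      refine ⟨u, ?_⟩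
      rw [hχx, hχx, map_mul, hρ, act, hu, map_mul, ← IsScalarTower.algebraMap_apply]
      ring
    refine gvk_tame hG ?_ e0 ea act' hk hgen' fix N.hRG hΘ fin ne st h hSf hS'
    intro 𝔓 g h𝔓 hg1 hg
    obtain ⟨h1, h2⟩ := wildN hG h𝔓 (⟨hg1, hg⟩ : IW (Tk k O E M) 𝔓 g)
    exact hnw 𝔓 _ g h𝔓 h1 h2 ((Tk_iff 𝔓 g).1 hg.1) rfl

end

section plc

variable {k E M F K Λ : Type} [CommRing k] [IsDomain k]
  [IsDedekindDomain k] [Field E] [Field M] [Field F] [Field K] [Algebra E F]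
  [Algebra k E] [Algebra k F] [IsScalarTower k E F] [IsFractionRing k E]
  [Algebra E M] [FiniteDimensional E M] [IsGalois E M]
  [Algebra M K] [Algebra E K] [IsScalarTower E M K] [Algebra F K] [IsScalarTower E F K]
  [AddCommGroup Λ] [Module.Free ℤ Λ] [Module.Finite ℤ Λ] [DistribMulAction (M ≃ₐ[E] M) Λ]
  {χ : Λ → K} {Δ : Set Λ} {V : ValuationSubring E} {𝔭 : Ideal k} {c : ℕ}
  {f : Fin c → AA (integralClosure V M) Λ} {a : Λ → M}

/-- **The local lattices of nondegenerate subvarieties.** -/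
theorem VP.glk_of (hV : VP k V 𝔭) (hfin : Finite (k ⧸ 𝔭)) {ρ : (M ≃ₐ[E] M) →* (K ≃ₐ[E] K)}
    (hρ : ∀ g x, ρ g (algebraMap M K x) = algebraMap M K (g x))
    (χ0 : χ 0 = 1) (χa : ∀ x y, χ (x + y) = χ x * χ y) (act : ∀ g x, ρ g (χ x) = χ (g • x))
    (hgen : IntermediateField.adjoin M (Set.range χ) = ⊤)
    (fix : ∀ y, (∀ g, ρ g y = y) ↔ ∃ z : F, algebraMap F K z = y)
    (N : NDG E χ a f)
    {Θ : Set Λ} (hΘ : DF f Θ) (fin : Δ.Finite) (ne : Δ.Nonempty)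
    (st : ∀ g : M ≃ₐ[E] M, ∀ x ∈ Δ, g • x ∈ Δ)
    (h : ∀ g : M ≃ₐ[E] M, CVP (SVR (orderOf g) (sA Λ g) Θ Δ) Δ)
    {S : Set F} (hSf : S.Finite)
    (hS : Submodule.span M (algebraMap F K '' S) = Submodule.span M (χ '' Δ)) :
    GLK 𝔭 (Submodule.span E S) := by
  have i1 := hV.ded
  have i2 := hV.dedO (M := M)
  have i3 : IsScalarTower V (integralClosure V M) K := IsScalarTower.of_algebraMap_eq fun x =>
    IsScalarTower.algebraMap_apply E M K x
  have i4 : IsScalarTower V F K :=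
    IsScalarTower.of_algebraMap_eq fun x => IsScalarTower.algebraMap_apply E F K x
  exact hV.glk (gvk_of (k := V) (O := integralClosure V M) hρ
    (fun 𝔓 h𝔓 _ => hV.res hfin 𝔓 h𝔓) χ0 χa act hgen fix N hΘ fin ne st h hSf hS)

end plc

end Pool.Agent.T9h3.Q
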