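import Pool.Agent.T9h3.Q.Mdl
import Pool.Agent.T9h3.Q.Lat
import Mathlib.RingTheory.Valuation.ValuationSubring
import Mathlib.RingTheory.DedekindDomain.AdicValuation
import Mathlib.RingTheory.DedekindDomain.Dvr

/-!
# Valuation rings of Dedekind domains
-/

set_option autoImplicit false
set_option linter.unusedSectionVars false
set_option linter.overlappingInstances false
set_option linter.style.haveILetI false
set_option linter.unusedVariables false

namespace Pool.Agent.T9h3.Q

open Pool.Agent.T9h3.P IsDedekindDomain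

section vp

variable {k E : Type} [CommRing k] [IsDomain k] [IsDedekindDomain k] [Field E] [Algebra k E]
  [IsFractionRing k E]

/-- `V` is the valuation ring of the maximal ideal `𝔭`. -/
structure VP (k : Type) {E : Type} [CommRing k] [Field E] [Algebra k E] (V : ValuationSubring E)
    (𝔭 : Ideal k) : Prop where
  le : ∀ x : k, algebraMap k E x ∈ V
  mx : 𝔭.IsMaximal
  ne : 𝔭 ≠ ⊥
  iff : ∀ x : k, x ∈ 𝔭 ↔ algebraMap k E x = 0 ∨ (algebraMap k E x)⁻¹ ∉ V

theorem exists_VP (𝔭 : Ideal k) (hp : 𝔭.IsMaximal) (h0 : 𝔭 ≠ ⊥) :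
    ∃ V : ValuationSubring E, VP k V 𝔭 := by
  obtain ⟨v, hv⟩ : ∃ v : HeightOneSpectrum k, v.asIdeal = 𝔭 := ⟨⟨𝔭, hp.isPrime, h0⟩, rfl⟩
  refine ⟨(v.valuation E).valuationSubring, fun x => ?_, hp, h0, fun x => ?_⟩
  · rw [Valuation.mem_valuationSubring_iff]
    exact v.valuation_le_one x
  · rw [Valuation.mem_valuationSubring_iff, ← hv, ← v.valuation_lt_one_iff_mem (K := E), map_inv₀]
    change (v.valuation E) (algebraMap k E x) < 1 ↔ _
    by_cases h : algebraMap k E x = 0
    · rw [h, map_zero]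
      simp
    · have h1 : (v.valuation E) (algebraMap k E x) ≠ 0 := (Valuation.ne_zero_iff _).2 h
      constructor
      · intro h2
        right
        rw [not_le]
        exact (one_lt_inv₀ (zero_lt_iff.2 h1)).2 h2
      · rintro (h2 | h2)
        · exact absurd h2 h
        · rw [not_le] at h2
          exact (one_lt_inv₀ (zero_lt_iff.2 h1)).1 h2

lemma VP.unit {V : ValuationSubring E} {𝔭 : Ideal k} (h : VP k V 𝔭) {s : k} (hs : s ∉ 𝔭) :
    algebraMap k E s ≠ 0 ∧ (algebraMap k E s)⁻¹ ∈ V := by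
  rw [h.iff, not_or, not_not] at hs
  exact hs

/-- The elements of the valuation ring are fractions. -/
lemma VP.surj {V : ValuationSubring E} {𝔭 : Ideal k} (h : VP k V 𝔭) {x : E} (hx : x ∈ V) :
    ∃ s : k, s ∉ 𝔭 ∧ ∃ c : k, algebraMap k E s * x = algebraMap k E c := by
  have hpp := h.mx.isPrime
  have hD : IsDiscreteValuationRing (Localization.AtPrime 𝔭) :=
    IsLocalization.AtPrime.isDiscreteValuationRing_of_dedekind_domain k h.ne _
  obtain ⟨a, b, hb, rfl⟩ := IsFractionRing.div_surjective (A := k) x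
  have hb0 : b ≠ 0 := nonZeroDivisors.ne_zero hb
  have hb1 : algebraMap k E b ≠ 0 := fun h => hb0 (IsFractionRing.injective k E (by
    rw [h, map_zero]))
  have key : ∀ a b : k, algebraMap k (Localization.AtPrime 𝔭) b ∣
      algebraMap k (Localization.AtPrime 𝔭) a → ∃ s : k, s ∉ 𝔭 ∧ ∃ c : k, s * a = b * c := by
    intro a b hab
    obtain ⟨y, hy⟩ := hab
    obtain ⟨⟨c, s⟩, hcs⟩ := IsLocalization.surj 𝔭.primeCompl y
    have h1 : algebraMap k (Localization.AtPrime 𝔭) (s * a) =
        algebraMap k (Localization.AtPrime 𝔭) (b * c) := by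
      rw [map_mul, map_mul, hy, ← hcs]
      ring
    obtain ⟨t, ht⟩ := (IsLocalization.eq_iff_exists 𝔭.primeCompl _).1 h1
    refine ⟨t * s, fun h2 => ?_, t * c, ?_⟩
    · exact (hpp.mem_or_mem h2).elim t.2 s.2
    · rw [mul_assoc, ht]
      ring
  rcases ValuationRing.dvd_total (algebraMap k (Localization.AtPrime 𝔭) b)
    (algebraMap k (Localization.AtPrime 𝔭) a) with h1 | h1
  · obtain ⟨s, hs, c, hsc⟩ := key a b h1
    refine ⟨s, hs, c, ?_⟩
    have h2 := congrArg (algebraMap k E) hsc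
    rw [map_mul, map_mul] at h2
    rw [← mul_div_assoc, h2]
    field_simp
  · obtain ⟨s, hs, c, hsc⟩ := key b a h1
    have h2 := congrArg (algebraMap k E) hsc
    rw [map_mul, map_mul] at h2
    have h3 : algebraMap k E s = algebraMap k E c * (algebraMap k E a / algebraMap k E b) := by
      field_simp
      rw [h2]
      ring
    by_cases hc : c ∈ 𝔭
    · exfalso
      obtain ⟨hs0, hsV⟩ := h.unit hs
      rcases (h.iff c).1 hc with h4 | h4
      · apply hs0
        rw [h3, h4, zero_mul]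
      · apply h4
        have hc0 : algebraMap k E c ≠ 0 := by
          intro h5
          apply hs0
          rw [h3, h5, zero_mul]
        have h5 : (algebraMap k E c)⁻¹ = (algebraMap k E a / algebraMap k E b) *
            (algebraMap k E s)⁻¹ := by
          rw [h3]
          have hs' : algebraMap k E c * (algebraMap k E a / algebraMap k E b) ≠ 0 := by
            rw [← h3]
            exact hs0
          have ha : algebraMap k E a / algebraMap k E b ≠ 0 := right_ne_zero_of_mul hs'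
          rw [mul_inv, mul_comm (algebraMap k E c)⁻¹, ← mul_assoc, mul_inv_cancel₀ ha, one_mul]
        rw [h5]
        exact V.mul_mem _ _ hx hsV
    · exact ⟨c, hc, s, h3.symm⟩

/-- The map to the valuation ring. -/
def VP.hom {V : ValuationSubring E} {𝔭 : Ideal k} (h : VP k V 𝔭) : k →+* V :=
  (algebraMap k E).codRestrict V h.le

lemma VP.isLoc {V : ValuationSubring E} {𝔭 : Ideal k} (h : VP k V 𝔭) :
    letI := h.hom.toAlgebra
    letI := h.mx.isPrime
    IsLocalization.AtPrime V 𝔭 := by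
  letI := h.hom.toAlgebra
  letI := h.mx.isPrime
  refine ⟨?_, ?_, ?_⟩
  · rintro ⟨s, hs⟩
    obtain ⟨hs0, hsV⟩ := h.unit hs
    refine IsUnit.of_mul_eq_one (⟨_, hsV⟩ : V) (Subtype.ext ?_)
    exact mul_inv_cancel₀ hs0
  · rintro ⟨x, hx⟩
    obtain ⟨s, hs, c, hsc⟩ := h.surj hx
    refine ⟨⟨c, ⟨s, hs⟩⟩, Subtype.ext ?_⟩
    change x * algebraMap k E s = algebraMap k E c
    rw [mul_comm]
    exact hsc
  · intro a b hab
    refine ⟨1, ?_⟩
    have h1 : algebraMap k E a = algebraMap k E b := congrArg Subtype.val hab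
    rw [IsFractionRing.injective k E h1]

lemma VP.ded {V : ValuationSubring E} {𝔭 : Ideal k} (h : VP k V 𝔭) : IsDedekindDomain V := by
  letI := h.hom.toAlgebra
  haveI := h.mx.isPrime
  haveI := h.isLoc
  exact IsLocalization.AtPrime.isDedekindDomain k 𝔭 V

/-- The residue field. -/
lemma VP.resV {V : ValuationSubring E} {𝔭 : Ideal k} (h : VP k V 𝔭) (hfin : Finite (k ⧸ 𝔭))
    (I : Ideal V) (hI : I ≠ ⊤) (hpI : ∀ x ∈ 𝔭, h.hom x ∈ I) : Finite (V ⧸ I) := by
  have hmp := h.mx
  let φ : k ⧸ 𝔭 →+* V ⧸ I := Ideal.Quotient.lift 𝔭 ((Ideal.Quotient.mk I).comp h.hom)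
    (fun x hx => Ideal.Quotient.eq_zero_iff_mem.2 (hpI x hx))
  refine Finite.of_surjective φ ?_
  intro y
  obtain ⟨⟨x, hx⟩, rfl⟩ := Ideal.Quotient.mk_surjective y
  obtain ⟨s, hs, c, hsc⟩ := h.surj hx
  letI := Ideal.Quotient.field 𝔭
  have hs0 : Ideal.Quotient.mk 𝔭 s ≠ 0 := by
    rw [Ne, Ideal.Quotient.eq_zero_iff_mem]
    exact hs
  refine ⟨(Ideal.Quotient.mk 𝔭 s)⁻¹ * Ideal.Quotient.mk 𝔭 c, ?_⟩
  have h1 : φ (Ideal.Quotient.mk 𝔭 s) * φ ((Ideal.Quotient.mk 𝔭 s)⁻¹ * Ideal.Quotient.mk 𝔭 c) =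
      φ (Ideal.Quotient.mk 𝔭 s) * Ideal.Quotient.mk I ⟨x, hx⟩ := by
    rw [← map_mul, ← mul_assoc, mul_inv_cancel₀ hs0, one_mul]
    change Ideal.Quotient.mk I (h.hom c) = Ideal.Quotient.mk I (h.hom s) * Ideal.Quotient.mk I _
    rw [← map_mul]
    congr 1
    exact Subtype.ext hsc.symm
  have hu : IsUnit (φ (Ideal.Quotient.mk 𝔭 s)) := (isUnit_iff_ne_zero.2 hs0).map φ
  exact hu.mul_left_cancel h1

end vp

section res

variable {k E M : Type} [CommRing k] [IsDomain k] [IsDedekindDomain k] [Field E] [Algebra k E]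
  [IsFractionRing k E] [Field M] [Algebra E M] [FiniteDimensional E M] [IsGalois E M]

lemma VP.dedO {V : ValuationSubring E} {𝔭 : Ideal k} (h : VP k V 𝔭) :
    IsDedekindDomain (integralClosure V M) := by
  have := h.ded
  exact integralClosure.isDedekindDomain V E M

lemma VP.finO {V : ValuationSubring E} {𝔭 : Ideal k} (h : VP k V 𝔭) :
    Module.Finite V (integralClosure V M) := by
  have := h.ded
  exact IsIntegralClosure.finite V E M _

/-- The residue fields are finite. -/
lemma VP.res {V : ValuationSubring E} {𝔭 : Ideal k} (h : VP k V 𝔭) (hfin : Finite (k ⧸ 𝔭))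
    (𝔓 : Ideal (integralClosure V M)) (h𝔓 : 𝔓.IsMaximal) :
    Finite (integralClosure V M ⧸ 𝔓) := by
  have := h.finO (M := M)
  obtain ⟨I, hI⟩ : ∃ I : Ideal V, I = 𝔓.comap (algebraMap V (integralClosure V M)) := ⟨_, rfl⟩
  have hIm : I.IsMaximal := by
    rw [hI]
    exact Ideal.isMaximal_comap_of_isIntegral_of_isMaximal 𝔓
  have h1 : ∀ x ∈ 𝔭, h.hom x ∈ I := by
    intro x hx
    have h2 := IsLocalRing.eq_maximalIdeal hIm
    rw [h2, IsLocalRing.mem_maximalIdeal, mem_nonunits_iff]
    intro hu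
    obtain ⟨y, hy⟩ := hu.exists_right_inv
    have h3 : algebraMap k E x * (y : E) = 1 := congrArg Subtype.val hy
    rcases (h.iff x).1 hx with h4 | h4
    · rw [h4, zero_mul] at h3
      exact zero_ne_one h3
    · apply h4
      rw [← eq_inv_of_mul_eq_one_right h3]
      exact y.2
  have hfV : Finite (V ⧸ I) := h.resV hfin I hIm.ne_top h1
  have h2 : Module.Finite V (integralClosure V M ⧸ 𝔓) :=
    Module.Finite.of_surjective (Submodule.mkQ (𝔓.restrictScalars V))
      (Submodule.mkQ_surjective _)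
  obtain ⟨n, g, hg⟩ := Module.Finite.exists_fin (R := V) (M := integralClosure V M ⧸ 𝔓)
  choose r hr using (Ideal.Quotient.mk_surjective (I := I))
  refine Finite.of_surjective (fun a : Fin n → V ⧸ I => ∑ i, (r (a i)) • g i) ?_
  intro y
  have hy : y ∈ Submodule.span V (Set.range g) := by rw [hg]; trivial
  obtain ⟨b, hb⟩ := (Submodule.mem_span_range_iff_exists_fun V).1 hy
  refine ⟨fun i => Ideal.Quotient.mk I (b i), ?_⟩
  rw [← hb]
  refine Finset.sum_congr rfl fun i _ => ?_
  have h3 : r (Ideal.Quotient.mk I (b i)) - b i ∈ I := by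
    rw [← Ideal.Quotient.mk_eq_mk_iff_sub_mem, hr]
  rw [← sub_eq_zero, ← sub_smul]
  obtain ⟨o, ho⟩ := Ideal.Quotient.mk_surjective (g i)
  rw [← ho]
  have h5 : algebraMap V (integralClosure V M) (r (Ideal.Quotient.mk I (b i)) - b i) ∈ 𝔓 := by
    rw [← Ideal.mem_comap]
    exact hI.le h3
  have h4 : (r (Ideal.Quotient.mk I (b i)) - b i) • Ideal.Quotient.mk 𝔓 o =
      Ideal.Quotient.mk 𝔓 ((r (Ideal.Quotient.mk I (b i)) - b i) • o) := rfl
  rw [h4, Ideal.Quotient.eq_zero_iff_mem, Algebra.smul_def]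
  exact 𝔓.mul_mem_right _ h5

end res

section glk

variable {k E F : Type} [CommRing k] [IsDomain k] [IsDedekindDomain k] [Field E] [Algebra k E]
  [IsFractionRing k E] [Field F] [Algebra E F] [Algebra k F] [IsScalarTower k E F]

/-- The local lattices with regular charts. -/
def GLK (𝔭 : Ideal k) (W : Submodule E F) : Prop :=
  ∃ n : ℕ, 1 ≤ n ∧ ∀ m : ℕ, 1 ≤ m → ∃ N : Submodule k F, SPN N (W ^ (n * m)) ∧ FGL 𝔭 N ∧
    RCH (N : Set F) ∧ QCH (N : Set F)

/-- **Local lattices from lattices over the valuation ring.** -/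
theorem VP.glk {V : ValuationSubring E} {𝔭 : Ideal k} (h : VP k V 𝔭) {W : Submodule E F}
    (hG : GVK V W) : GLK 𝔭 W := by
  classical
  obtain ⟨n, hn, hG⟩ := hG
  refine ⟨n, hn, fun m hm => ?_⟩
  obtain ⟨N, ⟨S, hS⟩, hsp, hR, hQ, -⟩ := hG m hm
  have hVF : ∀ (v : V) (x : F), v • x = algebraMap E F v * x := by
    intro v x
    rw [Algebra.smul_def]
    rfl
  have hkF : ∀ (c : k) (x : F), c • x = algebraMap E F (algebraMap k E c) * x := by
    intro c x
    rw [Algebra.smul_def, ← IsScalarTower.algebraMap_apply]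
  obtain ⟨N', hN'⟩ : ∃ N' : Submodule k F, ∀ x, x ∈ N' ↔ x ∈ N :=
    ⟨{ carrier := N
       add_mem' := fun ha hb => N.add_mem ha hb
       zero_mem' := N.zero_mem
       smul_mem' := fun c x hx => by
         have h1 : c • x = h.hom c • x := by
           rw [hkF, hVF]
           rfl
         rw [h1]
         exact N.smul_mem _ hx }, fun x => Iff.rfl⟩
  have hset : (N' : Set F) = N := by
    ext x
    exact hN' x
  refine ⟨N', ⟨fun x hx => hsp.sub x ((hN' x).1 hx), fun x hx => ?_⟩, ?_, by rwa [hset],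
    by rwa [hset]⟩
  · obtain ⟨v, hv, hvx⟩ := hsp.den x hx
    obtain ⟨s, hs, c, hsc⟩ := h.surj v.2
    obtain ⟨hs0, -⟩ := h.unit hs
    refine ⟨c, ?_, ?_⟩
    · rintro rfl
      rw [map_zero] at hsc
      rcases mul_eq_zero.1 hsc with h1 | h1
      · exact hs0 h1
      · exact hv (Subtype.ext h1)
    · rw [hN']
      have h1 : c • x = h.hom s • (v • x) := by
        rw [hkF, hVF, hVF, ← hsc, map_mul, mul_assoc]
        rfl
      rw [h1]
      exact N.smul_mem _ hvx
  · refine ⟨S, fun x hx => ?_, fun x hx => ?_⟩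
    · rw [hN', ← hS]
      exact Submodule.subset_span hx
    · rw [hN', ← hS] at hx
      have hpp := h.mx.isPrime
      induction hx using Submodule.span_induction with
      | mem x hx =>
        exact ⟨1, (Ideal.ne_top_iff_one 𝔭).1 hpp.ne_top, by
          rw [one_smul]; exact Submodule.subset_span hx⟩
      | zero =>
        exact ⟨1, (Ideal.ne_top_iff_one 𝔭).1 hpp.ne_top, by
          rw [smul_zero]; exact Submodule.zero_mem _⟩
      | add x y _ _ hx hy =>
        obtain ⟨s, hs, hsx⟩ := hx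
        obtain ⟨t, ht, hty⟩ := hy
        refine ⟨s * t, fun h1 => (hpp.mem_or_mem h1).elim hs ht, ?_⟩
        rw [smul_add]
        refine Submodule.add_mem _ ?_ ?_
        · rw [mul_comm, mul_smul]
          exact Submodule.smul_mem _ _ hsx
        · rw [mul_smul]
          exact Submodule.smul_mem _ _ hty
      | smul v x _ hx =>
        obtain ⟨s, hs, hsx⟩ := hx
        obtain ⟨t, ht, c, htc⟩ := h.surj v.2
        refine ⟨s * t, fun h1 => (hpp.mem_or_mem h1).elim hs ht, ?_⟩
        have h1 : (s * t) • (v • x) = c • (s • x) := by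
          rw [hkF, hVF, hkF, hkF, ← htc, map_mul, map_mul, map_mul]
          ring
        rw [h1]
        exact Submodule.smul_mem _ _ hsx

end glk

end Pool.Agent.T9h3.Q
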